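import Pool.Agent.H99.HN.Targets

/-!
# Helper lemmas
-/

namespace Pool.Agent.H15.HN

open Pool.Agent.H99.HM Pool.Agent.H99.HN
open MeasureTheory Set Filter Topology Real
open scoped ContDiff

theorem aesm_rad {f : ℝ → ℝ} (hf : ContinuousOn f (Ioi 0)) :
    AEStronglyMeasurable (fun x : E3 => f ‖x‖) volume := by
  have h1 : ContinuousOn (fun x : E3 => f ‖x‖) {x : E3 | x ≠ 0} := by
    apply hf.comp continuous_norm.continuousOn
    intro x hx
    exact norm_pos_iff.2 hx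
  have hm : MeasurableSet {x : E3 | x ≠ 0} := (measurableSet_singleton (0:E3)).compl
  have h2 := h1.aestronglyMeasurable (μ := (volume : Measure E3)) hm
  have h3 : (volume : Measure E3).restrict {x : E3 | x ≠ 0} = volume := by
    apply Measure.restrict_eq_self_of_ae_mem
    have : ∀ᵐ x : E3, x ∉ ({0} : Set E3) := measure_eq_zero_iff_ae_notMem.1 (measure_singleton 0)
    filter_upwards [this] with x hx
    simpa using hx
  rwa [h3] at h2

theorem int_u2 {u : E3 → ℂ} {G : Fin 3 → E3 → ℂ} (hu : IsH1 u G) :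
    Integrable (fun x => ‖u x‖ ^ 2) := by
  have := hu.memLp.integrable_norm_pow (by norm_num)
  simpa using this

theorem int_G2 {u : E3 → ℂ} {G : Fin 3 → E3 → ℂ} (hu : IsH1 u G) (i : Fin 3) :
    Integrable (fun x => ‖G i x‖ ^ 2) := by
  have := (hu.memLp_grad i).integrable_norm_pow (by norm_num)
  simpa using this

theorem int_g2 {u : E3 → ℂ} {G : Fin 3 → E3 → ℂ} (hu : IsH1 u G) :
    Integrable (fun x => g2 G x) := by
  unfold g2
  exact integrable_finsetSum _ (fun i _ => int_G2 hu i)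

theorem g2_nonneg (G : Fin 3 → E3 → ℂ) (x : E3) : 0 ≤ g2 G x := by
  unfold g2; positivity

/-- the double integral of `|u(x)|² |u(y)|² / |x-y|²` -/
theorem int_dbl (hH : T_hardy) {u : E3 → ℂ} {G : Fin 3 → E3 → ℂ} (hu : IsH1 u G)
    {F : E3 → ℝ} (hF : Integrable F) :
    Integrable (fun z : E3 × E3 => F z.1 * (‖u z.2‖ ^ 2 / ‖z.1 - z.2‖ ^ 2))
      ((volume : Measure E3).prod volume) := by
  have hms : AEStronglyMeasurable (fun z : E3 × E3 => F z.1 * (‖u z.2‖ ^ 2 / ‖z.1 - z.2‖ ^ 2))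
      ((volume : Measure E3).prod volume) := by
    have a := hF.aestronglyMeasurable.comp_fst (ν := (volume : Measure E3))
    have b := (int_u2 hu).aestronglyMeasurable.comp_snd (μ := (volume : Measure E3))
    have c : Measurable (fun z : E3 × E3 => ‖z.1 - z.2‖ ^ 2) := by fun_prop
    exact a.mul (b.aemeasurable.div c.aemeasurable).aestronglyMeasurable
  rw [integrable_prod_iff hms]
  have hy : ∀ x : E3, Integrable (fun y => ‖u y‖ ^ 2 / ‖x - y‖ ^ 2) := by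
    intro x
    have := (hH u G hu x).1
    refine this.congr (Eventually.of_forall fun y => ?_)
    simp only [norm_sub_rev]
  refine ⟨Eventually.of_forall fun x => (hy x).const_mul (F x), ?_⟩
  have hb : ∀ x : E3, ∫ y, ‖F x * (‖u y‖ ^ 2 / ‖x - y‖ ^ 2)‖ ≤ (4 * ∫ y, g2 G y) * |F x| := by
    intro x
    have h1 : (fun y => ‖F x * (‖u y‖ ^ 2 / ‖x - y‖ ^ 2)‖) =
        fun y => |F x| * (‖u y‖ ^ 2 / ‖y - x‖ ^ 2) := by
      funext y
      rw [norm_mul, Real.norm_eq_abs, Real.norm_eq_abs, norm_sub_rev,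
        abs_of_nonneg (a := ‖u y‖ ^ 2 / ‖y - x‖ ^ 2) (by positivity)]
    rw [h1, integral_const_mul]
    have := (hH u G hu x).2
    calc _ ≤ |F x| * (4 * ∫ y, g2 G y) := by gcongr
      _ = _ := by ring
  refine Integrable.mono' (hF.abs.const_mul (4 * ∫ y, g2 G y)) ?_ (Eventually.of_forall fun x => ?_)
  · exact hms.norm.integral_prod_right'
  · rw [Real.norm_eq_abs, abs_of_nonneg (integral_nonneg fun _ => norm_nonneg _)]
    exact hb x

/-- the symmetrised double integral -/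
theorem prod_Zf (hH : T_hardy) {u : E3 → ℂ} {G : Fin 3 → E3 → ℂ} (hu : IsH1 u G)
    {b : E3 → ℝ} {C : ℝ} (hb : AEStronglyMeasurable b volume) (hC : ∀ x, |b x| * ‖x‖ ≤ C) :
    Integrable (fun z : E3 × E3 => (b z.1 * ‖u z.1‖ ^ 2) *
      (‖u z.2‖ ^ 2 * (inner ℝ z.1 (z.1 - z.2) / ‖z.1 - z.2‖ ^ 3)))
      ((volume : Measure E3).prod volume) ∧
    ∫ x, b x * ‖u x‖ ^ 2 * Zf u x = ∫ z, (b z.1 * ‖u z.1‖ ^ 2) *
      (‖u z.2‖ ^ 2 * (inner ℝ z.1 (z.1 - z.2) / ‖z.1 - z.2‖ ^ 3))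
      ∂((volume : Measure E3).prod volume) := by
  have hint := int_dbl hH hu ((int_u2 hu).const_mul C)
  have hms : AEStronglyMeasurable (fun z : E3 × E3 => (b z.1 * ‖u z.1‖ ^ 2) *
      (‖u z.2‖ ^ 2 * (inner ℝ z.1 (z.1 - z.2) / ‖z.1 - z.2‖ ^ 3)))
      ((volume : Measure E3).prod volume) := by
    have a := (hb.mul (int_u2 hu).aestronglyMeasurable).comp_fst (ν := (volume : Measure E3))
    have b := (int_u2 hu).aestronglyMeasurable.comp_snd (μ := (volume : Measure E3))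
    have c : Measurable (fun z : E3 × E3 => inner ℝ z.1 (z.1 - z.2) / ‖z.1 - z.2‖ ^ 3) := by
      fun_prop
    exact a.mul (b.mul c.aestronglyMeasurable)
  have hI : Integrable (fun z : E3 × E3 => (b z.1 * ‖u z.1‖ ^ 2) *
      (‖u z.2‖ ^ 2 * (inner ℝ z.1 (z.1 - z.2) / ‖z.1 - z.2‖ ^ 3)))
      ((volume : Measure E3).prod volume) := by
    refine hint.mono' hms (Eventually.of_forall fun z => ?_)
    have h1 : |inner ℝ z.1 (z.1 - z.2)| ≤ ‖z.1‖ * ‖z.1 - z.2‖ := abs_real_inner_le_norm _ _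
    rw [Real.norm_eq_abs, abs_mul, abs_mul, abs_mul, abs_div, abs_of_nonneg (by positivity :
      (0:ℝ) ≤ ‖u z.1‖ ^ 2), abs_of_nonneg (by positivity : (0:ℝ) ≤ ‖u z.2‖ ^ 2),
      abs_of_nonneg (by positivity : (0:ℝ) ≤ ‖z.1 - z.2‖ ^ 3)]
    have h2 : |inner ℝ z.1 (z.1 - z.2)| / ‖z.1 - z.2‖ ^ 3 ≤ ‖z.1‖ / ‖z.1 - z.2‖ ^ 2 := by
      rcases eq_or_lt_of_le (norm_nonneg (z.1 - z.2)) with h | h
      · rw [← h]; simp
      · rw [div_le_div_iff₀ (by positivity) (by positivity)]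
        calc |inner ℝ z.1 (z.1 - z.2)| * ‖z.1 - z.2‖ ^ 2
            ≤ (‖z.1‖ * ‖z.1 - z.2‖) * ‖z.1 - z.2‖ ^ 2 := by gcongr
          _ = _ := by ring
    calc |b z.1| * ‖u z.1‖ ^ 2 * (‖u z.2‖ ^ 2 * (|inner ℝ z.1 (z.1 - z.2)| / ‖z.1 - z.2‖ ^ 3))
        ≤ |b z.1| * ‖u z.1‖ ^ 2 * (‖u z.2‖ ^ 2 * (‖z.1‖ / ‖z.1 - z.2‖ ^ 2)) := by gcongr
      _ = (|b z.1| * ‖z.1‖) * (‖u z.1‖ ^ 2 * (‖u z.2‖ ^ 2 / ‖z.1 - z.2‖ ^ 2)) := by ring
      _ ≤ C * (‖u z.1‖ ^ 2 * (‖u z.2‖ ^ 2 / ‖z.1 - z.2‖ ^ 2)) := by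
          gcongr
          exact hC z.1
      _ = _ := by ring
  refine ⟨hI, ?_⟩
  rw [integral_prod _ hI]
  refine integral_congr_ae (Eventually.of_forall fun x => ?_)
  simp only [Zf]
  rw [← integral_const_mul]

end Pool.Agent.H15.HN
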