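import Pool.Agent.H15.HN.Base

namespace Pool.Agent.H15.HN

open Pool.Agent.H99.HM Pool.Agent.H99.HN
open MeasureTheory Set Filter Topology Real
open scoped ContDiff

/-- the smoothed Newton kernel -/
noncomputable def zt (ε : ℝ) (y x : E3) : ℝ := (√(‖x - y‖ ^ 2 + ε))⁻¹

theorem zt_contDiff {ε : ℝ} (hε : 0 < ε) (y : E3) : ContDiff ℝ 1 (zt ε y) := by
  unfold zt
  have h1 : ContDiff ℝ 1 (fun x : E3 => ‖x - y‖ ^ 2 + ε) := by
    have : ContDiff ℝ 1 (fun x : E3 => ‖x - y‖ ^ 2) := (contDiff_id.sub contDiff_const).norm_sq ℝ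
    exact this.add contDiff_const
  have h2 : ∀ x : E3, ‖x - y‖ ^ 2 + ε ≠ 0 := fun x => by positivity
  have h3 := h1.sqrt h2
  exact h3.inv (fun x => by
    have : 0 < ‖x - y‖ ^ 2 + ε := by positivity
    exact (Real.sqrt_pos.2 this).ne')

theorem zt_pd {ε : ℝ} (hε : 0 < ε) (y x : E3) (i : Fin 3) :
    pd i (zt ε y) x = -((x i - y i) / √(‖x - y‖ ^ 2 + ε) ^ 3) := by
  have hq : 0 < ‖x - y‖ ^ 2 + ε := by positivity
  have hs : 0 < √(‖x - y‖ ^ 2 + ε) := Real.sqrt_pos.2 hq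
  have h1 : HasFDerivAt (fun x : E3 => ‖x - y‖ ^ 2 + ε) (2 • innerSL ℝ (x - y)) x := by
    have a := (hasStrictFDerivAt_norm_sq (x - y)).hasFDerivAt
    have b : HasFDerivAt (fun x : E3 => x - y) (ContinuousLinearMap.id ℝ E3) x :=
      (hasFDerivAt_id x).sub_const y
    have c := a.comp x b
    have d := c.add_const ε
    simpa [Function.comp_def] using d
  have h2 : HasDerivAt (fun s : ℝ => (√s)⁻¹) (-(1 / (2 * √(‖x - y‖ ^ 2 + ε))) /
      √(‖x - y‖ ^ 2 + ε) ^ 2) (‖x - y‖ ^ 2 + ε) :=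
    (Real.hasDerivAt_sqrt hq.ne').inv hs.ne'
  have h3 := h2.comp_hasFDerivAt x h1
  have h4 : HasFDerivAt (zt ε y) _ x := h3
  unfold pd
  rw [h4.fderiv]
  simp only [smul_apply, innerSL_apply_apply, smul_eq_mul, nsmul_eq_mul]
  have : inner ℝ (x - y) (EuclideanSpace.single i (1:ℝ)) = x i - y i := by
    rw [EuclideanSpace.inner_single_right]; simp
  rw [this]
  field_simp
  norm_num

theorem zt_le {ε : ℝ} (hε : 0 < ε) (y x : E3) :
    |zt ε y x| ≤ 1 / √ε ∧ ∀ i, |pd i (zt ε y) x| ≤ 1 / ε := by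
  have hq : 0 < ‖x - y‖ ^ 2 + ε := by positivity
  have hs : 0 < √(‖x - y‖ ^ 2 + ε) := Real.sqrt_pos.2 hq
  have hεs : 0 < √ε := Real.sqrt_pos.2 hε
  constructor
  · unfold zt
    rw [abs_of_nonneg (by positivity), one_div]
    gcongr
    have := sq_nonneg ‖x - y‖
    linarith
  · intro i
    rw [zt_pd hε, abs_neg, abs_div, abs_of_nonneg (by positivity : (0:ℝ) ≤ √(‖x - y‖ ^ 2 + ε) ^ 3)]
    have h1 : |x i - y i| ≤ √(‖x - y‖ ^ 2 + ε) := by
      have : |x i - y i| ≤ ‖x - y‖ := by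
        have := PiLp.norm_apply_le (x - y) i
        simpa using this
      refine this.trans ?_
      apply Real.le_sqrt_of_sq_le
      linarith
    have h2 : √(‖x - y‖ ^ 2 + ε) ^ 3 = √(‖x - y‖ ^ 2 + ε) * (‖x - y‖ ^ 2 + ε) := by
      rw [pow_succ', Real.sq_sqrt hq.le]
    rw [h2, div_le_div_iff₀ (by positivity) hε]
    have : ε ≤ ‖x - y‖ ^ 2 + ε := by have := sq_nonneg ‖x - y‖; linarith
    calc |x i - y i| * ε ≤ √(‖x - y‖ ^ 2 + ε) * (‖x - y‖ ^ 2 + ε) := by gcongr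
      _ = _ := by ring

theorem ae_diag : ∀ᵐ z : E3 × E3 ∂((volume : Measure E3).prod volume), z.1 ≠ z.2 := by
  have hm : MeasurableSet {z : E3 × E3 | z.1 = z.2} := isClosed_diagonal.measurableSet
  have : ((volume : Measure E3).prod volume) {z : E3 × E3 | z.1 = z.2} = 0 := by
    rw [Measure.measure_prod_null hm]
    refine Eventually.of_forall fun x => ?_
    have : Prod.mk x ⁻¹' {z : E3 × E3 | z.1 = z.2} = {x} := by
      ext y; simp [eq_comm]
    change volume (Prod.mk x ⁻¹' {z : E3 × E3 | z.1 = z.2}) = 0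
    rw [this]; exact measure_singleton x
  rw [← compl_compl {z : E3 × E3 | z.1 = z.2}] at this
  exact this

/-- hartree is continuous -/
theorem hartree_cont (hB : T_hb) {u : E3 → ℂ} {G : Fin 3 → E3 → ℂ} (hu : IsH1 u G) :
    Continuous (hartree u) := by
  obtain ⟨-, h2, -⟩ := hB u G hu
  have hn : 0 ≤ 4 * ∫ y, g2 G y := by
    have := integral_nonneg (μ := (volume : Measure E3)) (f := fun y => g2 G y) (fun y => g2_nonneg G y)
    linarith
  have : LipschitzWith (Real.toNNReal (4 * ∫ y, g2 G y)) (hartree u) := by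
    apply LipschitzWith.of_dist_le_mul
    intro x y
    rw [Real.dist_eq, dist_eq_norm, Real.coe_toNNReal _ hn]
    exact h2 x y
  exact this.continuous

theorem hartree_bd (hB : T_hb) {u : E3 → ℂ} {G : Fin 3 → E3 → ℂ} (hu : IsH1 u G) :
    ∃ M, 0 ≤ M ∧ ∀ x, 0 ≤ hartree u x ∧ hartree u x ≤ M := by
  obtain ⟨h1, -⟩ := hB u G hu
  refine ⟨(∫ y, g2 G y) + mass u, (h1 0).2.1.trans (h1 0).2.2, fun x => (h1 x).2⟩

theorem int_mul_hartree (hB : T_hb) {u : E3 → ℂ} {G : Fin 3 → E3 → ℂ} (hu : IsH1 u G)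
    {F : E3 → ℝ} (hF : Integrable F) : Integrable (fun x => F x * hartree u x) := by
  obtain ⟨M, hM, hb⟩ := hartree_bd hB hu
  refine hF.mul_bdd (c := M) (hartree_cont hB hu).aestronglyMeasurable
    (Eventually.of_forall fun x => ?_)
  rw [Real.norm_eq_abs, abs_of_nonneg (hb x).1]
  exact (hb x).2

theorem int_dbl1 (hB : T_hb) {u : E3 → ℂ} {G : Fin 3 → E3 → ℂ} (hu : IsH1 u G)
    {F : E3 → ℝ} (hF : Integrable F) :
    Integrable (fun z : E3 × E3 => F z.1 * (‖u z.2‖ ^ 2 / ‖z.1 - z.2‖))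
      ((volume : Measure E3).prod volume) := by
  obtain ⟨M, hM, hb⟩ := hartree_bd hB hu
  have hms : AEStronglyMeasurable (fun z : E3 × E3 => F z.1 * (‖u z.2‖ ^ 2 / ‖z.1 - z.2‖))
      ((volume : Measure E3).prod volume) := by
    have a := hF.aestronglyMeasurable.comp_fst (ν := (volume : Measure E3))
    have b := (int_u2 hu).aestronglyMeasurable.comp_snd (μ := (volume : Measure E3))
    have c : Measurable (fun z : E3 × E3 => ‖z.1 - z.2‖) := by fun_prop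
    exact a.mul (b.aemeasurable.div c.aemeasurable).aestronglyMeasurable
  rw [integrable_prod_iff hms]
  refine ⟨Eventually.of_forall fun x => (((hB u G hu).1 x).1).const_mul (F x), ?_⟩
  have hbb : ∀ x : E3, ∫ y, ‖F x * (‖u y‖ ^ 2 / ‖x - y‖)‖ ≤ M * |F x| := by
    intro x
    have h1 : (fun y => ‖F x * (‖u y‖ ^ 2 / ‖x - y‖)‖) =
        fun y => |F x| * (‖u y‖ ^ 2 / ‖x - y‖) := by
      funext y
      rw [norm_mul, Real.norm_eq_abs, Real.norm_eq_abs,
        abs_of_nonneg (a := ‖u y‖ ^ 2 / ‖x - y‖) (by positivity)]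
    rw [h1, integral_const_mul]
    have h2 : ∫ y, ‖u y‖ ^ 2 / ‖x - y‖ ≤ M := (hb x).2
    calc _ ≤ |F x| * M := by gcongr
      _ = _ := by ring
  refine Integrable.mono' (hF.abs.const_mul M) ?_ (Eventually.of_forall fun x => ?_)
  · exact hms.norm.integral_prod_right'
  · rw [Real.norm_eq_abs, abs_of_nonneg (integral_nonneg fun _ => norm_nonneg _)]
    exact hbb x

theorem zt_le_inv {ε : ℝ} (hε : 0 ≤ ε) {y x : E3} (h : x ≠ y) : zt ε y x ≤ 1 / ‖x - y‖ := by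
  unfold zt
  have h0 : 0 < ‖x - y‖ := norm_pos_iff.2 (sub_ne_zero.2 h)
  rw [one_div]
  gcongr
  apply Real.le_sqrt_of_sq_le
  linarith

theorem ibb (hD : T_divz) (hH : T_hardy) (hB : T_hb) : T_ibb := by
  intro u G hu B B1 C hC1 hbd
  have hC0 : 0 ≤ C := (abs_nonneg _).trans (hbd 1 one_pos).1
  have hbd' : ∀ r, 0 < r → |B r| ≤ C ∧ |B1 r| ≤ C * (1 / r + 1) := fun r hr =>
    ⟨(hbd r hr).1, (hbd r hr).2.2.trans (by
      have : 0 ≤ 1 / r := by positivity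
      nlinarith)⟩
  -- integrability
  have hone := hD u G hu B B1 (fun _ => 1) (C + 1) hC1
    (fun r hr => ⟨(hbd' r hr).1.trans (by linarith), (hbd' r hr).2.trans (by
      have : 0 ≤ 1 / r := by positivity
      nlinarith)⟩) contDiff_const
    (fun x => ⟨by rw [abs_one]; linarith, fun i => by simp [pd]; linarith⟩)
  obtain ⟨hI1, hI2, -⟩ := hone
  set F : E3 → ℝ := fun x => (B1 ‖x‖ + 2 * B ‖x‖ / ‖x‖) * ‖u x‖ ^ 2 + 2 * B ‖x‖ * ur u G x with hF
  have hI2' : Integrable (fun x => 2 * B ‖x‖ * ur u G x) := by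
    have := hI2.const_mul 2
    refine this.congr (Eventually.of_forall fun x => ?_)
    simp only; ring
  have hFI : Integrable F := hI1.add hI2'
  set b : E3 → ℝ := fun x => B ‖x‖ / ‖x‖ with hb
  have hBc : ContinuousOn B (Ioi 0) := fun r hr => (hC1.der r hr).continuousAt.continuousWithinAt
  have hbm : AEStronglyMeasurable b volume := by
    have : ContinuousOn (fun r : ℝ => B r / r) (Ioi 0) :=
      hBc.div continuousOn_id (fun r hr => ne_of_gt hr)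
    exact aesm_rad this
  have hbC : ∀ x, |b x| * ‖x‖ ≤ C := by
    intro x
    rcases eq_or_ne x 0 with rfl | hx
    · simpa using hC0
    · have hx' : 0 < ‖x‖ := norm_pos_iff.2 hx
      have h1 := hbd _ hx'
      simp only [hb]
      rw [abs_div, abs_of_pos hx', div_mul_cancel₀ _ hx'.ne']
      exact h1.1
  obtain ⟨hRI, hRE⟩ := prod_Zf hH hu hbm hbC
  have hLI := int_dbl1 hB hu hFI
  -- the approximating functions
  set L : ℕ → E3 × E3 → ℝ := fun n z => F z.1 * (‖u z.2‖ ^ 2 * zt (1 / (n + 1)) z.2 z.1) with hL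
  set R : ℕ → E3 × E3 → ℝ := fun n z => (b z.1 * ‖u z.1‖ ^ 2) * (‖u z.2‖ ^ 2 *
    (inner ℝ z.1 (z.1 - z.2) / √(‖z.1 - z.2‖ ^ 2 + 1 / (n + 1)) ^ 3)) with hR
  have hpos : ∀ n : ℕ, (0:ℝ) < 1 / (n + 1) := fun n => by positivity
  have hu2 := (int_u2 hu).aestronglyMeasurable
  have hLm : ∀ n, AEStronglyMeasurable (L n) ((volume : Measure E3).prod volume) := by
    intro n
    have a := hFI.aestronglyMeasurable.comp_fst (ν := (volume : Measure E3))
    have b := hu2.comp_snd (μ := (volume : Measure E3))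
    have c : Measurable (fun z : E3 × E3 => zt (1 / (n + 1)) z.2 z.1) := by
      unfold zt; fun_prop
    exact a.mul (b.mul c.aestronglyMeasurable)
  have hRm : ∀ n, AEStronglyMeasurable (R n) ((volume : Measure E3).prod volume) := by
    intro n
    have a := (hbm.mul hu2).comp_fst (ν := (volume : Measure E3))
    have b := hu2.comp_snd (μ := (volume : Measure E3))
    have c : Measurable (fun z : E3 × E3 => inner ℝ z.1 (z.1 - z.2) /
      √(‖z.1 - z.2‖ ^ 2 + 1 / (n + 1)) ^ 3) := by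
      fun_prop
    exact a.mul (b.mul c.aestronglyMeasurable)
  have hLb : ∀ n, ∀ᵐ z ∂((volume : Measure E3).prod volume),
      ‖L n z‖ ≤ |F z.1| * (‖u z.2‖ ^ 2 / ‖z.1 - z.2‖) := by
    intro n
    filter_upwards [ae_diag] with z hz
    have h1 := zt_le_inv (hpos n).le hz
    have h0 : 0 ≤ zt (1 / (n + 1)) z.2 z.1 := by unfold zt; positivity
    simp only [hL]
    rw [norm_mul, Real.norm_eq_abs, Real.norm_eq_abs, abs_mul, abs_of_nonneg h0,
      abs_of_nonneg (by positivity : (0:ℝ) ≤ ‖u z.2‖ ^ 2), div_eq_mul_one_div (‖u z.2‖ ^ 2)]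
    gcongr
  have hRb : ∀ n, ∀ z : E3 × E3, ‖R n z‖ ≤ C * ‖u z.1‖ ^ 2 * (‖u z.2‖ ^ 2 / ‖z.1 - z.2‖ ^ 2) := by
    intro n z
    have hs : 0 < √(‖z.1 - z.2‖ ^ 2 + 1 / (n + 1)) := Real.sqrt_pos.2 (by positivity)
    have hns : ‖z.1 - z.2‖ ≤ √(‖z.1 - z.2‖ ^ 2 + 1 / (n + 1)) :=
      Real.le_sqrt_of_sq_le (by have := hpos n; linarith)
    have h1 : |inner ℝ z.1 (z.1 - z.2)| ≤ ‖z.1‖ * ‖z.1 - z.2‖ := abs_real_inner_le_norm _ _
    have h0 : |inner ℝ z.1 (z.1 - z.2) / √(‖z.1 - z.2‖ ^ 2 + 1 / (n + 1)) ^ 3| =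
        |inner ℝ z.1 (z.1 - z.2)| / √(‖z.1 - z.2‖ ^ 2 + 1 / (n + 1)) ^ 3 := by
      rw [abs_div, abs_of_nonneg
        (by positivity : (0:ℝ) ≤ √(‖z.1 - z.2‖ ^ 2 + 1 / (n + 1)) ^ 3)]
    change ‖(b z.1 * ‖u z.1‖ ^ 2) * (‖u z.2‖ ^ 2 *
      (inner ℝ z.1 (z.1 - z.2) / √(‖z.1 - z.2‖ ^ 2 + 1 / (n + 1)) ^ 3))‖ ≤ _
    rw [Real.norm_eq_abs, abs_mul, abs_mul, abs_mul, h0, abs_of_nonneg (by positivity :
      (0:ℝ) ≤ ‖u z.1‖ ^ 2), abs_of_nonneg (by positivity : (0:ℝ) ≤ ‖u z.2‖ ^ 2)]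
    have h2 : |inner ℝ z.1 (z.1 - z.2)| / √(‖z.1 - z.2‖ ^ 2 + 1 / (n + 1)) ^ 3 ≤
        ‖z.1‖ / ‖z.1 - z.2‖ ^ 2 := by
      rcases eq_or_lt_of_le (norm_nonneg (z.1 - z.2)) with h | h
      · rw [← h] at h1 ⊢
        have : |inner ℝ z.1 (z.1 - z.2)| = 0 := le_antisymm (by simpa using h1) (abs_nonneg _)
        rw [this]; simp
      · rw [div_le_div_iff₀ (by positivity) (by positivity)]
        calc |inner ℝ z.1 (z.1 - z.2)| * ‖z.1 - z.2‖ ^ 2
            ≤ (‖z.1‖ * ‖z.1 - z.2‖) * ‖z.1 - z.2‖ ^ 2 := by gcongr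
          _ = ‖z.1‖ * ‖z.1 - z.2‖ ^ 3 := by ring
          _ ≤ _ := by gcongr
    calc |b z.1| * ‖u z.1‖ ^ 2 * (‖u z.2‖ ^ 2 * (|inner ℝ z.1 (z.1 - z.2)| /
          √(‖z.1 - z.2‖ ^ 2 + 1 / (n + 1)) ^ 3))
        ≤ |b z.1| * ‖u z.1‖ ^ 2 * (‖u z.2‖ ^ 2 * (‖z.1‖ / ‖z.1 - z.2‖ ^ 2)) := by gcongr
      _ = (|b z.1| * ‖z.1‖) * (‖u z.1‖ ^ 2 * (‖u z.2‖ ^ 2 / ‖z.1 - z.2‖ ^ 2)) := by ring
      _ ≤ C * (‖u z.1‖ ^ 2 * (‖u z.2‖ ^ 2 / ‖z.1 - z.2‖ ^ 2)) := by
          gcongr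
          exact hbC z.1
      _ = _ := by ring
  have hdomR := int_dbl hH hu ((int_u2 hu).const_mul C)
  have hdomL := int_dbl1 hB hu hFI.abs
  have hLint : ∀ n, Integrable (L n) ((volume : Measure E3).prod volume) := fun n =>
    hdomL.mono' (hLm n) (hLb n)
  have hRint : ∀ n, Integrable (R n) ((volume : Measure E3).prod volume) := fun n =>
    hdomR.mono' (hRm n) (Eventually.of_forall (hRb n))
  -- equality for every `n`
  have heq : ∀ n, ∫ z, L n z ∂((volume : Measure E3).prod volume) =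
      ∫ z, R n z ∂((volume : Measure E3).prod volume) := by
    intro n
    rw [integral_prod_symm _ (hLint n), integral_prod_symm _ (hRint n)]
    refine integral_congr_ae (Eventually.of_forall fun y => ?_)
    have hz := zt_le (hpos n) y
    have hsq : 0 < √(1 / ((n:ℝ) + 1)) := Real.sqrt_pos.2 (hpos n)
    have h := (hD u G hu B B1 (zt (1 / (n + 1)) y)
      (C + 1 / √(1 / ((n:ℝ) + 1)) + 1 / (1 / ((n:ℝ) + 1))) hC1
      (fun r hr => ⟨(hbd' r hr).1.trans (by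
          have h1 : 0 ≤ 1 / √(1 / ((n:ℝ) + 1)) := by positivity
          have h2 : 0 ≤ 1 / (1 / ((n:ℝ) + 1)) := by positivity
          linarith), (hbd' r hr).2.trans (by
          have h1 : 0 ≤ 1 / √(1 / ((n:ℝ) + 1)) := by positivity
          have h2 : 0 ≤ 1 / (1 / ((n:ℝ) + 1)) := by positivity
          gcongr
          linarith)⟩) (zt_contDiff (hpos n) y)
      (fun x => ⟨(hz x).1.trans (by
          have h2 : 0 ≤ 1 / (1 / ((n:ℝ) + 1)) := by positivity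
          linarith), fun i => ((hz x).2 i).trans (by
          have h1 : 0 ≤ 1 / √(1 / ((n:ℝ) + 1)) := by positivity
          linarith)⟩)).2.2
    simp only [hL, hR]
    have e1 : ∀ x, F x * (‖u y‖ ^ 2 * zt (1 / (n + 1)) y x) = ‖u y‖ ^ 2 *
        (((B1 ‖x‖ + 2 * B ‖x‖ / ‖x‖) * ‖u x‖ ^ 2 + 2 * B ‖x‖ * ur u G x) *
          zt (1 / (n + 1)) y x) := fun x => by simp only [hF]; ring
    have e2 : ∀ x, b x * ‖u x‖ ^ 2 * (‖u y‖ ^ 2 * (inner ℝ x (x - y) /
        √(‖x - y‖ ^ 2 + 1 / (n + 1)) ^ 3)) = ‖u y‖ ^ 2 * (-(B ‖x‖ * ‖u x‖ ^ 2 *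
          ∑ i, x i / ‖x‖ * pd i (zt (1 / (n + 1)) y) x)) := by
      intro x
      have : ∑ i, x i / ‖x‖ * pd i (zt (1 / (n + 1)) y) x =
          -(inner ℝ x (x - y) / √(‖x - y‖ ^ 2 + 1 / (n + 1)) ^ 3) / ‖x‖ := by
        simp only [zt_pd (hpos n)]
        have hin : (inner ℝ x (x - y) : ℝ) = x 0 * (x 0 - y 0) + x 1 * (x 1 - y 1)
            + x 2 * (x 2 - y 2) := by
          simp [PiLp.inner_apply, Fin.sum_univ_three]
          ring
        rw [hin, Fin.sum_univ_three]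
        ring
      rw [this]
      simp only [hb]
      ring
    simp only [e1, e2]
    rw [integral_const_mul, integral_const_mul, h, integral_neg]
  -- limits
  have hεlim : Tendsto (fun n : ℕ => (1:ℝ) / (n + 1)) atTop (𝓝 0) := tendsto_one_div_add_atTop_nhds_zero_nat
  have hsqlim : ∀ z : E3 × E3, Tendsto (fun n : ℕ => √(‖z.1 - z.2‖ ^ 2 + 1 / ((n:ℝ) + 1))) atTop
      (𝓝 ‖z.1 - z.2‖) := by
    intro z
    have := (Real.continuous_sqrt.tendsto _).comp ((tendsto_const_nhds (x := ‖z.1 - z.2‖ ^ 2)).add hεlim)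
    rw [add_zero, Real.sqrt_sq (norm_nonneg _)] at this
    exact this
  have tL : Tendsto (fun n => ∫ z, L n z ∂((volume : Measure E3).prod volume)) atTop
      (𝓝 (∫ z, F z.1 * (‖u z.2‖ ^ 2 / ‖z.1 - z.2‖) ∂((volume : Measure E3).prod volume))) := by
    refine tendsto_integral_of_dominated_convergence _ hLm hdomL hLb ?_
    filter_upwards [ae_diag] with z hz
    have h0 : ‖z.1 - z.2‖ ≠ 0 := (norm_pos_iff.2 (sub_ne_zero.2 hz)).ne'
    have := (hsqlim z).inv₀ h0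
    simp only [hL, zt]
    rw [div_eq_mul_inv]
    exact (this.const_mul (‖u z.2‖ ^ 2)).const_mul (F z.1)
  have tR : Tendsto (fun n => ∫ z, R n z ∂((volume : Measure E3).prod volume)) atTop
      (𝓝 (∫ z, (b z.1 * ‖u z.1‖ ^ 2) *
      (‖u z.2‖ ^ 2 * (inner ℝ z.1 (z.1 - z.2) / ‖z.1 - z.2‖ ^ 3))
        ∂((volume : Measure E3).prod volume))) := by
    refine tendsto_integral_of_dominated_convergence _ hRm hdomR
      (fun n => Eventually.of_forall (hRb n)) ?_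
    filter_upwards [ae_diag] with z hz
    have h0 : ‖z.1 - z.2‖ ≠ 0 := (norm_pos_iff.2 (sub_ne_zero.2 hz)).ne'
    have := ((hsqlim z).pow 3)
    have h3 : Tendsto (fun n : ℕ => inner ℝ z.1 (z.1 - z.2) /
      √(‖z.1 - z.2‖ ^ 2 + 1 / ((n:ℝ) + 1)) ^ 3) atTop
        (𝓝 (inner ℝ z.1 (z.1 - z.2) / ‖z.1 - z.2‖ ^ 3)) :=
      tendsto_const_nhds.div this (pow_ne_zero 3 h0)
    simp only [hR]
    exact (h3.const_mul (‖u z.2‖ ^ 2)).const_mul (b z.1 * ‖u z.1‖ ^ 2)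
  have hfin : ∫ z, F z.1 * (‖u z.2‖ ^ 2 / ‖z.1 - z.2‖) ∂((volume : Measure E3).prod volume) =
      ∫ z, (b z.1 * ‖u z.1‖ ^ 2) *
      (‖u z.2‖ ^ 2 * (inner ℝ z.1 (z.1 - z.2) / ‖z.1 - z.2‖ ^ 3))
        ∂((volume : Measure E3).prod volume) := by
    refine tendsto_nhds_unique tL ?_
    refine tR.congr (fun n => (heq n).symm)
  have hLfin : ∫ z, F z.1 * (‖u z.2‖ ^ 2 / ‖z.1 - z.2‖) ∂((volume : Measure E3).prod volume) =
      ∫ x, F x * hartree u x := by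
    rw [integral_prod _ hLI]
    refine integral_congr_ae (Eventually.of_forall fun x => ?_)
    simp only [hartree]
    rw [← integral_const_mul]
  have hsplit : ∫ x, F x * hartree u x =
      (∫ x, (B1 ‖x‖ + 2 * B ‖x‖ / ‖x‖) * ‖u x‖ ^ 2 * hartree u x)
        + 2 * ∫ x, B ‖x‖ * ur u G x * hartree u x := by
    have j1 := int_mul_hartree hB hu hI1
    have j2 := int_mul_hartree hB hu hI2
    rw [← integral_const_mul, ← integral_add j1 (j2.const_mul 2)]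
    refine integral_congr_ae (Eventually.of_forall fun x => ?_)
    simp only [hF]
    ring
  rw [← hsplit, ← hLfin, hfin, ← hRE]

end Pool.Agent.H15.HN
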