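import Pool.Agent.H15.HN.Ibb

namespace Pool.Agent.H15.HN

open Pool.Agent.H99.HM Pool.Agent.H99.HN
open MeasureTheory Set Filter Topology Real
open scoped ContDiff

/-- the cutoff `(1 + r/(n+1))^(-K)` -/
noncomputable def chi (K n : ℕ) (r : ℝ) : ℝ := ((1 + r / (n + 1)) ^ K)⁻¹

/-- its derivative -/
noncomputable def chi1 (K n : ℕ) (r : ℝ) : ℝ :=
  -(K * (1 / (n + 1)) * ((1 + r / (n + 1)) ^ (K + 1))⁻¹)

theorem chi_der (K n : ℕ) {r : ℝ} (hr : 0 ≤ r) : HasDerivAt (chi K n) (chi1 K n r) r := by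
  have hp : (0:ℝ) < 1 + r / (n + 1) := by positivity
  have h1 : HasDerivAt (fun r : ℝ => 1 + r / (n + 1)) (1 / (n + 1)) r :=
    ((hasDerivAt_id r).div_const _).const_add 1
  have h2 := (h1.pow K).inv (pow_ne_zero K hp.ne')
  have h3 : HasDerivAt (chi K n) _ r := h2
  refine h3.congr_deriv ?_
  unfold chi1
  rcases K with _ | K
  · simp
  · simp only [Nat.add_sub_cancel, Pi.pow_apply]
    field_simp
    ring

theorem chi_pos (K n : ℕ) {r : ℝ} (hr : 0 ≤ r) : 0 < chi K n r := by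
  unfold chi; positivity

theorem chi_le_one (K n : ℕ) {r : ℝ} (hr : 0 ≤ r) : chi K n r ≤ 1 := by
  unfold chi
  apply inv_le_one_of_one_le₀
  apply one_le_pow₀
  have : 0 ≤ r / (n + 1) := by positivity
  linarith

theorem chi_pow (K n j : ℕ) (hj : j ≤ K) {r : ℝ} (hr : 0 ≤ r) :
    r ^ j * chi K n r ≤ (n + 1) ^ j := by
  have hn : (0:ℝ) < n + 1 := by positivity
  have hp : (0:ℝ) < 1 + r / (n + 1) := by positivity
  have h1 : r ≤ (n + 1) * (1 + r / (n + 1)) := by
    have : (n + 1) * (1 + r / (n + 1)) = (n + 1) + r := by field_simp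
    linarith
  have h2 : r ^ j ≤ (n + 1) ^ j * (1 + r / (n + 1)) ^ K := by
    calc r ^ j ≤ ((n + 1) * (1 + r / (n + 1))) ^ j := by gcongr
      _ = (n + 1) ^ j * (1 + r / (n + 1)) ^ j := by rw [mul_pow]
      _ ≤ _ := by
        gcongr
        have : 0 ≤ r / (n + 1) := by positivity
        linarith
  unfold chi
  rw [← div_eq_mul_inv, div_le_iff₀ (by positivity)]
  exact h2

theorem chi1_abs (K n : ℕ) {r : ℝ} (hr : 0 ≤ r) : |chi1 K n r| * (n + 1 + r) ≤ K * chi K n r := by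
  have hn : (0:ℝ) < n + 1 := by positivity
  have hp : (0:ℝ) < 1 + r / (n + 1) := by positivity
  unfold chi1 chi
  rw [abs_neg, abs_of_nonneg (by positivity)]
  apply le_of_eq
  rw [pow_succ]
  field_simp

theorem chi_tendsto (K : ℕ) (r : ℝ) : Tendsto (fun n => chi K n r) atTop (𝓝 1) := by
  have h : Tendsto (fun n : ℕ => (1:ℝ) / (n + 1)) atTop (𝓝 0) :=
    tendsto_one_div_add_atTop_nhds_zero_nat
  have h1 : Tendsto (fun n : ℕ => 1 + r * ((1:ℝ) / (n + 1))) atTop (𝓝 (1 + r * 0)) :=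
    (h.const_mul r).const_add 1
  have h2 := (h1.pow K).inv₀ (by simp)
  simp only [mul_zero, add_zero, one_pow, inv_one] at h2
  refine h2.congr fun n => ?_
  unfold chi
  rw [mul_one_div]

theorem chi1_tendsto (K : ℕ) (r : ℝ) : Tendsto (fun n => chi1 K n r) atTop (𝓝 0) := by
  have h : Tendsto (fun n : ℕ => (1:ℝ) / (n + 1)) atTop (𝓝 0) :=
    tendsto_one_div_add_atTop_nhds_zero_nat
  have h1 := chi_tendsto (K + 1) r
  have h2 := ((h.const_mul (K:ℝ)).mul h1).neg
  simp only [mul_zero, zero_mul, neg_zero] at h2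
  exact h2

theorem ur_aesm {u : E3 → ℂ} {G : Fin 3 → E3 → ℂ} (hu : IsH1 u G) :
    AEStronglyMeasurable (ur u G) volume := by
  have h1 : AEStronglyMeasurable (dr G) volume := by
    unfold dr
    refine Finset.aestronglyMeasurable_fun_sum _ (fun i _ => ?_)
    refine AEStronglyMeasurable.mul ?_ (hu.memLp_grad i).1
    have : Measurable (fun x : E3 => ((x i / ‖x‖ : ℝ) : ℂ)) := by fun_prop
    exact this.aestronglyMeasurable
  have h2 : AEStronglyMeasurable (fun x => starRingEnd ℂ (u x)) volume :=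
    Complex.continuous_conj.comp_aestronglyMeasurable hu.memLp.1
  exact Complex.continuous_re.comp_aestronglyMeasurable (h2.mul h1)

theorem one_add_pow_le {a b : ℕ} (h : a ≤ b) {r : ℝ} (hr : 0 ≤ r) :
    1 + r ^ a ≤ 2 * (1 + r ^ b) := by
  rcases le_total r 1 with h1 | h1
  · have := pow_le_one₀ (n := a) hr h1
    have : 0 ≤ r ^ b := by positivity
    linarith
  · have := pow_le_pow_right₀ h1 h
    have h3 : 0 ≤ r ^ b := by positivity
    linarith

/-- a common bound for the two growth conditions -/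
theorem gr_common {B B1 : ℝ → ℝ} (h0 : Gr (fun r => B r / r)) (h1 : Gr B1) :
    ∃ (C : ℝ) (N : ℕ), 0 ≤ C ∧ ∀ r, 0 < r → |B r| ≤ C * r * (1 + r ^ N) ∧
      |B1 r| ≤ C * (1 + r ^ N) := by
  obtain ⟨C, N, hC⟩ := h0
  obtain ⟨D, M, hD⟩ := h1
  refine ⟨2 * (|C| + |D|), max N M, by positivity, fun r hr => ⟨?_, ?_⟩⟩
  · have := hC r hr
    simp only [abs_div, abs_of_pos hr] at this
    rw [div_le_iff₀ hr] at this
    have h2 := one_add_pow_le (le_max_left N M) hr.le
    calc |B r| ≤ C * (1 + r ^ N) * r := this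
      _ ≤ |C| * (1 + r ^ N) * r := by gcongr; exact le_abs_self C
      _ ≤ |C| * (2 * (1 + r ^ (max N M))) * r := by gcongr
      _ ≤ (|C| + |D|) * (2 * (1 + r ^ (max N M))) * r := by
          gcongr
          exact le_add_of_nonneg_right (abs_nonneg D)
      _ = _ := by ring
  · have := hD r hr
    have h2 := one_add_pow_le (le_max_right N M) hr.le
    calc |B1 r| ≤ D * (1 + r ^ M) := this
      _ ≤ |D| * (1 + r ^ M) := by gcongr; exact le_abs_self D
      _ ≤ |D| * (2 * (1 + r ^ (max N M))) := by gcongr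
      _ ≤ (|C| + |D|) * (2 * (1 + r ^ (max N M))) := by
          gcongr
          exact le_add_of_nonneg_left (abs_nonneg C)
      _ = _ := by ring

/-- properties of the cut off field -/
theorem cut_field {B B1 : ℝ → ℝ} (hC1 : C1 B B1) {C : ℝ} {N : ℕ} (hC : 0 ≤ C)
    (h : ∀ r, 0 < r → |B r| ≤ C * r * (1 + r ^ N) ∧ |B1 r| ≤ C * (1 + r ^ N)) (n : ℕ) :
    C1 (fun r => B r * chi (N + 2) n r)
      (fun r => B1 r * chi (N + 2) n r + B r * chi1 (N + 2) n r) ∧
    (∃ D, ∀ r, 0 < r → |B r * chi (N + 2) n r| ≤ D ∧ |B r * chi (N + 2) n r| ≤ D * r ∧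
      |B1 r * chi (N + 2) n r + B r * chi1 (N + 2) n r| ≤ D) ∧
    (∀ r, 0 < r → |B r * chi (N + 2) n r| ≤ C * r * (1 + r ^ N) ∧
      |B1 r * chi (N + 2) n r + B r * chi1 (N + 2) n r| ≤ C * (N + 3) * (1 + r ^ N)) := by
  have hBc : ContinuousOn B (Ioi 0) := fun r hr => (hC1.der r hr).continuousAt.continuousWithinAt
  have hchic : ContinuousOn (chi (N + 2) n) (Ioi 0) := fun r hr =>
    (chi_der (N + 2) n (le_of_lt hr)).continuousAt.continuousWithinAt
  have hchi1c : ContinuousOn (chi1 (N + 2) n) (Ioi 0) := by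
    unfold chi1
    apply ContinuousOn.neg
    apply ContinuousOn.mul continuousOn_const
    apply ContinuousOn.inv₀
    · fun_prop
    · intro r hr
      have : (0:ℝ) < r := hr
      positivity
  -- bound of the derivative term
  have hd : ∀ r, 0 < r → |B r * chi1 (N + 2) n r| ≤ C * (N + 2) * ((1 + r ^ N) * chi (N + 2) n r) := by
    intro r hr
    have h1 := chi1_abs (N + 2) n hr.le
    have h2 : |chi1 (N + 2) n r| * r ≤ (N + 2) * chi (N + 2) n r := by
      have : |chi1 (N + 2) n r| * r ≤ |chi1 (N + 2) n r| * (n + 1 + r) := by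
        gcongr
        have : (0:ℝ) ≤ n := by positivity
        linarith
      refine this.trans (h1.trans (le_of_eq ?_))
      push_cast; ring
    rw [abs_mul]
    calc |B r| * |chi1 (N + 2) n r| ≤ (C * r * (1 + r ^ N)) * |chi1 (N + 2) n r| := by
          gcongr; exact (h r hr).1
      _ = C * (1 + r ^ N) * (|chi1 (N + 2) n r| * r) := by ring
      _ ≤ C * (1 + r ^ N) * ((N + 2) * chi (N + 2) n r) := by gcongr
      _ = _ := by ring
  have hk : ∀ r, 0 < r → (1 + r ^ N) * chi (N + 2) n r ≤ 1 + (n + 1) ^ N := by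
    intro r hr
    have h1 := chi_pow (N + 2) n N (by omega) hr.le
    have h2 := chi_le_one (N + 2) n hr.le
    linarith [add_mul 1 (r ^ N) (chi (N + 2) n r)]
  have hk1 : ∀ r, 0 < r → r * (1 + r ^ N) * chi (N + 2) n r ≤ (n + 1) + (n + 1) ^ (N + 1) := by
    intro r hr
    have h1 := chi_pow (N + 2) n (N + 1) (by omega) hr.le
    have h2 := chi_pow (N + 2) n 1 (by omega) hr.le
    have : r * (1 + r ^ N) * chi (N + 2) n r = r ^ 1 * chi (N + 2) n r +
      r ^ (N + 1) * chi (N + 2) n r := by ring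
    rw [this]
    have := add_le_add h2 h1
    simpa using this
  refine ⟨⟨?_, ?_⟩, ?_, ?_⟩
  · intro r hr
    exact ((hC1.der r hr).mul (chi_der (N + 2) n hr.le))
  · exact (hC1.cont.mul hchic).add (hBc.mul hchi1c)
  · refine ⟨C * ((n + 1) + (n + 1) ^ (N + 1)) + C * (1 + (n + 1) ^ N) +
      (C * (1 + (n + 1) ^ N) + C * (N + 2) * (1 + (n + 1) ^ N)), fun r hr => ⟨?_, ?_, ?_⟩⟩
    · rw [abs_mul, abs_of_pos (chi_pos (N + 2) n hr.le)]
      have : |B r| * chi (N + 2) n r ≤ C * (r * (1 + r ^ N) * chi (N + 2) n r) := by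
        calc |B r| * chi (N + 2) n r ≤ (C * r * (1 + r ^ N)) * chi (N + 2) n r := by
              gcongr
              · exact (chi_pos (N + 2) n hr.le).le
              · exact (h r hr).1
          _ = _ := by ring
      have h3 : C * (r * (1 + r ^ N) * chi (N + 2) n r) ≤ C * ((n + 1) + (n + 1) ^ (N + 1)) := by
        gcongr
        exact hk1 r hr
      have p1 : 0 ≤ C * (1 + ((n:ℝ) + 1) ^ N) := by positivity
      have p2 : 0 ≤ C * ((N:ℝ) + 2) * (1 + ((n:ℝ) + 1) ^ N) := by positivity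
      linarith
    · rw [abs_mul, abs_of_pos (chi_pos (N + 2) n hr.le)]
      have : |B r| * chi (N + 2) n r ≤ C * ((1 + r ^ N) * chi (N + 2) n r) * r := by
        calc |B r| * chi (N + 2) n r ≤ (C * r * (1 + r ^ N)) * chi (N + 2) n r := by
              gcongr
              · exact (chi_pos (N + 2) n hr.le).le
              · exact (h r hr).1
          _ = _ := by ring
      have h3 : C * ((1 + r ^ N) * chi (N + 2) n r) * r ≤ C * (1 + (n + 1) ^ N) * r := by
        gcongr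
        exact hk r hr
      have p0 : 0 ≤ C * (((n:ℝ) + 1) + (n + 1) ^ (N + 1)) * r := by positivity
      have p1 : 0 ≤ C * (1 + ((n:ℝ) + 1) ^ N) * r := by positivity
      have p2 : 0 ≤ C * ((N:ℝ) + 2) * (1 + ((n:ℝ) + 1) ^ N) * r := by positivity
      nlinarith
    · have a1 : |B1 r * chi (N + 2) n r| ≤ C * (1 + (n + 1) ^ N) := by
        rw [abs_mul, abs_of_pos (chi_pos (N + 2) n hr.le)]
        calc |B1 r| * chi (N + 2) n r ≤ (C * (1 + r ^ N)) * chi (N + 2) n r := by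
              gcongr
              · exact (chi_pos (N + 2) n hr.le).le
              · exact (h r hr).2
          _ = C * ((1 + r ^ N) * chi (N + 2) n r) := by ring
          _ ≤ _ := by gcongr; exact hk r hr
      have a2 : |B r * chi1 (N + 2) n r| ≤ C * (N + 2) * (1 + (n + 1) ^ N) := by
        refine (hd r hr).trans ?_
        gcongr
        exact hk r hr
      have p0 : 0 ≤ C * (((n:ℝ) + 1) + (n + 1) ^ (N + 1)) := by positivity
      have p1 : 0 ≤ C * (1 + ((n:ℝ) + 1) ^ N) := by positivity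
      have := abs_add_le (B1 r * chi (N + 2) n r) (B r * chi1 (N + 2) n r)
      linarith
  · intro r hr
    have hc := chi_le_one (N + 2) n hr.le
    have hcp := (chi_pos (N + 2) n hr.le).le
    constructor
    · rw [abs_mul, abs_of_nonneg hcp]
      calc |B r| * chi (N + 2) n r ≤ |B r| * 1 := by gcongr
        _ = |B r| := mul_one _
        _ ≤ _ := (h r hr).1
    · have a1 : |B1 r * chi (N + 2) n r| ≤ C * (1 + r ^ N) := by
        rw [abs_mul, abs_of_nonneg hcp]
        calc |B1 r| * chi (N + 2) n r ≤ |B1 r| * 1 := by gcongr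
          _ = |B1 r| := mul_one _
          _ ≤ _ := (h r hr).2
      have a2 : |B r * chi1 (N + 2) n r| ≤ C * (N + 2) * (1 + r ^ N) := by
        refine (hd r hr).trans ?_
        have : (1 + r ^ N) * chi (N + 2) n r ≤ (1 + r ^ N) * 1 := by gcongr
        calc _ ≤ C * (N + 2) * ((1 + r ^ N) * 1) := by gcongr
          _ = _ := by ring
      have := abs_add_le (B1 r * chi (N + 2) n r) (B r * chi1 (N + 2) n r)
      calc _ ≤ _ := this
        _ ≤ C * (1 + r ^ N) + C * (N + 2) * (1 + r ^ N) := add_le_add a1 a2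
        _ = _ := by ring

theorem ibp (hI : T_ibb) (hP : T_pint) (hB : T_hb) (hZ : T_zf) : T_ibp := by
  intro u G hu hM B B1 hC1 hg0 hg1
  obtain ⟨C, N, hC, hb⟩ := gr_common hg0 hg1
  obtain ⟨M, hM0, hMb⟩ := hartree_bd hB hu
  have hcut := fun n => cut_field hC1 hC hb n
  set Bn : ℕ → ℝ → ℝ := fun n r => B r * chi (N + 2) n r with hBn
  set B1n : ℕ → ℝ → ℝ := fun n r => B1 r * chi (N + 2) n r + B r * chi1 (N + 2) n r with hB1n
  have hId : ∀ n, (∫ x, (B1n n ‖x‖ + 2 * Bn n ‖x‖ / ‖x‖) * ‖u x‖ ^ 2 * hartree u x)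
    + 2 * ∫ x, Bn n ‖x‖ * ur u G x * hartree u x = ∫ x, Bn n ‖x‖ / ‖x‖ * ‖u x‖ ^ 2 * Zf u x := by
    intro n
    obtain ⟨h1, ⟨D, hD⟩, -⟩ := hcut n
    exact hI u G hu (Bn n) (B1n n) D h1 hD
  have hBnc : ∀ n, ContinuousOn (Bn n) (Ioi 0) := fun n r hr =>
    ((hcut n).1.der r hr).continuousAt.continuousWithinAt
  have hu2 := (int_u2 hu).aestronglyMeasurable
  have hhc := (hartree_cont hB hu).aestronglyMeasurable (μ := (volume : Measure E3))
  have hur := ur_aesm hu
  obtain ⟨hZ1, hZ2, -⟩ := hZ u G hu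
  -- dominating functions
  have hf : ContinuousOn (fun r : ℝ => r * (1 + r ^ N)) (Ioi 0) := by fun_prop
  have hf1 : ContinuousOn (fun r : ℝ => 1 + r ^ N) (Ioi 0) := by fun_prop
  have hgf : Gr1 (fun r : ℝ => r * (1 + r ^ N)) := by
    refine ⟨2, N + 1, fun r hr => ?_⟩
    rw [abs_of_nonneg (by positivity)]
    have e : r * (1 + r ^ N) = r + r ^ (N + 1) := by ring
    change r * (1 + r ^ N) ≤ _
    rw [e]
    rcases le_total r 1 with h1 | h1
    · have : 1 ≤ 1 / r := by rw [le_div_iff₀ hr]; linarith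
      have : 0 ≤ r ^ (N + 1) := by positivity
      linarith
    · have : r ≤ r ^ (N + 1) := by
        calc r = r ^ 1 := (pow_one r).symm
          _ ≤ r ^ (N + 1) := pow_le_pow_right₀ h1 (by omega)
      have : 0 ≤ 1 / r := by positivity
      linarith
  have hgf1 : Gr1 (fun r : ℝ => 1 + r ^ N) := by
    refine ⟨2, N + 1, fun r hr => ?_⟩
    rw [abs_of_nonneg (by positivity)]
    rcases le_total r 1 with h1 | h1
    · have : 1 ≤ 1 / r := by rw [le_div_iff₀ hr]; linarith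
      have h2 : r ^ N ≤ 1 := pow_le_one₀ hr.le h1
      have : 0 ≤ r ^ (N + 1) := by positivity
      linarith
    · have h3 : 1 ≤ r ^ (N + 1) := one_le_pow₀ h1
      have h4 : r ^ N ≤ r ^ (N + 1) := pow_le_pow_right₀ h1 (by omega)
      have : 0 ≤ 1 / r := by positivity
      linarith
  have p1 := ((hP u G hu hM).1 _ hf hgf)
  have p2 := ((hP u G hu hM).1 _ hf1 hgf1).1
  have hx0 : ∀ᵐ x : E3, x ≠ 0 := by
    have : ∀ᵐ x : E3, x ∉ ({0} : Set E3) := measure_eq_zero_iff_ae_notMem.1 (measure_singleton 0)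
    filter_upwards [this] with x hx
    simpa using hx
  have lim1 : ∀ r, Tendsto (fun n => Bn n r) atTop (𝓝 (B r)) := by
    intro r
    have := (chi_tendsto (N + 2) r).const_mul (B r)
    rwa [mul_one] at this
  have lim2 : ∀ r, Tendsto (fun n => B1n n r) atTop (𝓝 (B1 r)) := by
    intro r
    have := ((chi_tendsto (N + 2) r).const_mul (B1 r)).add
      ((chi1_tendsto (N + 2) r).const_mul (B r))
    rwa [mul_one, mul_zero, add_zero] at this
  -- first integral
  have t1 : Tendsto (fun n => ∫ x, (B1n n ‖x‖ + 2 * Bn n ‖x‖ / ‖x‖) * ‖u x‖ ^ 2 * hartree u x)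
      atTop (𝓝 (∫ x, (B1 ‖x‖ + 2 * B ‖x‖ / ‖x‖) * ‖u x‖ ^ 2 * hartree u x)) := by
    refine tendsto_integral_of_dominated_convergence
      (fun x => (C * (N + 5) * M) * ((1 + ‖x‖ ^ N) * ‖u x‖ ^ 2)) (fun n => ?_) ?_ (fun n => ?_) ?_
    · have hm : AEStronglyMeasurable (fun x : E3 => B1n n ‖x‖ + 2 * Bn n ‖x‖ / ‖x‖) volume := by
        apply aesm_rad (f := fun r => B1n n r + 2 * Bn n r / r)
        apply ((hcut n).1.cont).add
        exact (continuousOn_const.mul (hBnc n)).div continuousOn_id (fun r hr => ne_of_gt hr)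
      exact (hm.mul hu2).mul hhc
    · exact p2.const_mul _
    · filter_upwards [hx0] with x hx
      have hx' : 0 < ‖x‖ := norm_pos_iff.2 hx
      obtain ⟨b1, b2⟩ := (hcut n).2.2 _ hx'
      have b3 : |2 * Bn n ‖x‖ / ‖x‖| ≤ 2 * C * (1 + ‖x‖ ^ N) := by
        rw [abs_div, abs_mul, abs_of_pos hx', div_le_iff₀ hx', abs_two]
        calc 2 * |Bn n ‖x‖| ≤ 2 * (C * ‖x‖ * (1 + ‖x‖ ^ N)) := by gcongr
          _ = _ := by ring
      have b4 : |B1n n ‖x‖ + 2 * Bn n ‖x‖ / ‖x‖| ≤ C * (N + 5) * (1 + ‖x‖ ^ N) := by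
        refine (abs_add_le _ _).trans ((add_le_add b2 b3).trans (le_of_eq (by ring)))
      have hh0 : 0 ≤ hartree u x := (hMb x).1
      have hh1 : hartree u x ≤ M := (hMb x).2
      rw [norm_mul, norm_mul, Real.norm_eq_abs, Real.norm_eq_abs, Real.norm_eq_abs,
        abs_of_nonneg (by positivity : (0:ℝ) ≤ ‖u x‖ ^ 2), abs_of_nonneg hh0]
      calc |B1n n ‖x‖ + 2 * Bn n ‖x‖ / ‖x‖| * ‖u x‖ ^ 2 * hartree u x
          ≤ (C * (N + 5) * (1 + ‖x‖ ^ N)) * ‖u x‖ ^ 2 * M := by
            gcongr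
        _ = _ := by ring
    · refine Eventually.of_forall fun x => ?_
      have := (lim2 ‖x‖).add (((lim1 ‖x‖).const_mul 2).div_const ‖x‖)
      exact (this.mul_const _).mul_const _
  have t2 : Tendsto (fun n => ∫ x, Bn n ‖x‖ * ur u G x * hartree u x)
      atTop (𝓝 (∫ x, B ‖x‖ * ur u G x * hartree u x)) := by
    refine tendsto_integral_of_dominated_convergence
      (fun x => (C * M) * ‖‖x‖ * (1 + ‖x‖ ^ N) * ur u G x‖) (fun n => ?_) ?_ (fun n => ?_) ?_
    · exact ((aesm_rad (hBnc n)).mul hur).mul hhc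
    · exact p1.2.norm.const_mul _
    · filter_upwards [hx0] with x hx
      have hx' : 0 < ‖x‖ := norm_pos_iff.2 hx
      obtain ⟨b1, b2⟩ := (hcut n).2.2 _ hx'
      have hh0 : 0 ≤ hartree u x := (hMb x).1
      have hh1 : hartree u x ≤ M := (hMb x).2
      change |Bn n ‖x‖ * ur u G x * hartree u x| ≤
        (C * M) * |‖x‖ * (1 + ‖x‖ ^ N) * ur u G x|
      rw [abs_mul, abs_mul (Bn n ‖x‖), abs_of_nonneg hh0, abs_mul (‖x‖ * (1 + ‖x‖ ^ N)),
        abs_of_nonneg (by positivity : (0:ℝ) ≤ ‖x‖ * (1 + ‖x‖ ^ N))]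
      calc |Bn n ‖x‖| * |ur u G x| * hartree u x
          ≤ (C * ‖x‖ * (1 + ‖x‖ ^ N)) * |ur u G x| * M := by
            gcongr
        _ = _ := by ring
    · refine Eventually.of_forall fun x => ?_
      exact ((lim1 ‖x‖).mul_const _).mul_const _
  have hg2n : 0 ≤ ∫ y, g2 G y := integral_nonneg (fun y => g2_nonneg G y)
  have t3 : Tendsto (fun n => ∫ x, Bn n ‖x‖ / ‖x‖ * ‖u x‖ ^ 2 * Zf u x)
      atTop (𝓝 (∫ x, B ‖x‖ / ‖x‖ * ‖u x‖ ^ 2 * Zf u x)) := by
    refine tendsto_integral_of_dominated_convergence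
      (fun x => (C * (4 * ∫ y, g2 G y)) * (‖x‖ * (1 + ‖x‖ ^ N) * ‖u x‖ ^ 2)) (fun n => ?_) ?_
      (fun n => ?_) ?_
    · have hm : AEStronglyMeasurable (fun x : E3 => Bn n ‖x‖ / ‖x‖) volume := by
        apply aesm_rad (f := fun r => Bn n r / r)
        exact (hBnc n).div continuousOn_id (fun r hr => ne_of_gt hr)
      exact (hm.mul hu2).mul hZ2
    · exact p1.1.const_mul _
    · filter_upwards [hx0] with x hx
      have hx' : 0 < ‖x‖ := norm_pos_iff.2 hx
      obtain ⟨b1, b2⟩ := (hcut n).2.2 _ hx'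
      have b3 : |Bn n ‖x‖ / ‖x‖| ≤ C * (1 + ‖x‖ ^ N) := by
        rw [abs_div, abs_of_pos hx', div_le_iff₀ hx']
        exact b1.trans (le_of_eq (by ring))
      have b4 := (hZ1 x).2
      rw [norm_mul, norm_mul, Real.norm_eq_abs, Real.norm_eq_abs, Real.norm_eq_abs,
        abs_of_nonneg (by positivity : (0:ℝ) ≤ ‖u x‖ ^ 2)]
      calc |Bn n ‖x‖ / ‖x‖| * ‖u x‖ ^ 2 * |Zf u x|
          ≤ (C * (1 + ‖x‖ ^ N)) * ‖u x‖ ^ 2 * (4 * (∫ y, g2 G y) * ‖x‖) := by
            gcongr
        _ = _ := by ring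
    · refine Eventually.of_forall fun x => ?_
      exact (((lim1 ‖x‖).div_const _).mul_const _).mul_const _
  have t12 := t1.add (t2.const_mul 2)
  refine tendsto_nhds_unique t12 ?_
  refine t3.congr (fun n => (hId n).symm)

end Pool.Agent.H15.HN
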