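import Pool.Agent.H15.HN.Ibp

namespace Pool.Agent.H15.HN

open Pool.Agent.H99.HM Pool.Agent.H99.HN
open MeasureTheory Set Filter Topology Real
open scoped ContDiff

theorem dr_sq_le (G : Fin 3 → E3 → ℂ) (x : E3) : ‖dr G x‖ ^ 2 ≤ g2 G x := by
  unfold dr g2
  have h1 : ‖∑ i, ((x i / ‖x‖ : ℝ) : ℂ) * G i x‖ ≤ ∑ i, |x i / ‖x‖| * ‖G i x‖ := by
    refine (norm_sum_le _ _).trans (le_of_eq ?_)
    refine Finset.sum_congr rfl fun i _ => ?_
    rw [norm_mul, Complex.norm_real, Real.norm_eq_abs]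
  have h2 : (∑ i, |x i / ‖x‖| * ‖G i x‖) ^ 2 ≤ (∑ i, |x i / ‖x‖| ^ 2) * ∑ i, ‖G i x‖ ^ 2 :=
    Finset.sum_mul_sq_le_sq_mul_sq _ _ _
  have h3 : ∑ i, |x i / ‖x‖| ^ 2 ≤ 1 := by
    rcases eq_or_ne x 0 with rfl | hx
    · simp
    · have hx' : 0 < ‖x‖ := norm_pos_iff.2 hx
      have : ∑ i, |x i / ‖x‖| ^ 2 = (∑ i, (x i) ^ 2) / ‖x‖ ^ 2 := by
        rw [Finset.sum_div]
        refine Finset.sum_congr rfl fun i _ => ?_
        rw [sq_abs, div_pow]
      rw [this, EuclideanSpace.norm_sq_eq]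
      simp only [Real.norm_eq_abs, sq_abs]
      apply div_self_le_one
  have h4 : 0 ≤ ∑ i, ‖G i x‖ ^ 2 := by positivity
  calc ‖∑ i, ((x i / ‖x‖ : ℝ) : ℂ) * G i x‖ ^ 2 ≤ (∑ i, |x i / ‖x‖| * ‖G i x‖) ^ 2 := by gcongr
    _ ≤ _ := h2
    _ ≤ 1 * ∑ i, ‖G i x‖ ^ 2 := by gcongr
    _ = _ := one_mul _

theorem ur_le (u : E3 → ℂ) (G : Fin 3 → E3 → ℂ) (x : E3) : |ur u G x| ≤ ‖u x‖ * ‖dr G x‖ := by
  unfold ur
  refine (Complex.abs_re_le_norm _).trans ?_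
  rw [norm_mul, RCLike.norm_conj]

theorem dr_aesm {u : E3 → ℂ} {G : Fin 3 → E3 → ℂ} (hu : IsH1 u G) :
    AEStronglyMeasurable (dr G) volume := by
  unfold dr
  refine Finset.aestronglyMeasurable_fun_sum _ (fun i _ => ?_)
  refine AEStronglyMeasurable.mul ?_ (hu.memLp_grad i).1
  have : Measurable (fun x : E3 => ((x i / ‖x‖ : ℝ) : ℂ)) := by fun_prop
  exact this.aestronglyMeasurable

theorem int_dr2 {u : E3 → ℂ} {G : Fin 3 → E3 → ℂ} (hu : IsH1 u G) :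
    Integrable (fun x => ‖dr G x‖ ^ 2) := by
  refine (int_g2 hu).mono' ((dr_aesm hu).norm.pow 2) (Eventually.of_forall fun x => ?_)
  rw [Real.norm_eq_abs, abs_of_nonneg (by positivity)]
  exact dr_sq_le G x

theorem int_ur {u : E3 → ℂ} {G : Fin 3 → E3 → ℂ} (hu : IsH1 u G) :
    Integrable (fun x => ur u G x) := by
  refine ((int_u2 hu).add (int_g2 hu)).mono' (ur_aesm hu) (Eventually.of_forall fun x => ?_)
  rw [Real.norm_eq_abs]
  have h1 := ur_le u G x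
  have h2 := dr_sq_le G x
  simp only [Pi.add_apply]
  nlinarith [sq_nonneg (‖u x‖ - ‖dr G x‖), norm_nonneg (u x), norm_nonneg (dr G x)]

/-- bounded radial weight times integrable -/
theorem int_rad_mul {f : ℝ → ℝ} (hf : ContinuousOn f (Ioi 0)) {C : ℝ}
    (hC : ∀ r, 0 < r → |f r| ≤ C) {F : E3 → ℝ} (hF : Integrable F) :
    Integrable (fun x => f ‖x‖ * F x) := by
  refine (hF.abs.const_mul C).mono' ((aesm_rad hf).mul hF.1) ?_
  have hx0 : ∀ᵐ x : E3, x ≠ 0 := by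
    have : ∀ᵐ x : E3, x ∉ ({0} : Set E3) := measure_eq_zero_iff_ae_notMem.1 (measure_singleton 0)
    filter_upwards [this] with x hx
    simpa using hx
  filter_upwards [hx0] with x hx
  rw [norm_mul, Real.norm_eq_abs, Real.norm_eq_abs]
  have := hC ‖x‖ (norm_pos_iff.2 hx)
  gcongr

theorem cover {f : E3 → ℝ} (hf : AEStronglyMeasurable f volume) (hf0 : ∀ x, 0 ≤ f x)
    (fR : ℕ → E3 → ℝ) (hI : ∀ n, Integrable (fR n)) (hn : ∀ n x, 0 ≤ fR n x) (K : ℝ)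
    (hK : ∀ n, ∫ x, fR n x ≤ K) (hle : ∀ n : ℕ, ∀ x : E3, ‖x‖ ≤ n + 1 → f x ≤ fR n x) :
    Integrable f := by
  have hcov : AECover (volume : Measure E3) atTop
      (fun n : ℕ => Metric.closedBall (0 : E3) ((n : ℝ) + 1)) :=
    aecover_closedBall (tendsto_atTop_add_const_right _ _ tendsto_natCast_atTop_atTop)
  have hmem : ∀ n : ℕ, ∀ x ∈ Metric.closedBall (0 : E3) ((n : ℝ) + 1), f x ≤ fR n x := by
    intro n x hx
    apply hle n x
    simpa using hx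
  have hint : ∀ n : ℕ, IntegrableOn f (Metric.closedBall (0 : E3) ((n : ℝ) + 1)) := by
    intro n
    refine ((hI n).integrableOn).mono' hf.restrict ?_
    refine (ae_restrict_iff' Metric.isClosed_closedBall.measurableSet).2
      (Eventually.of_forall fun x hx => ?_)
    rw [Real.norm_eq_abs, abs_of_nonneg (hf0 x)]
    exact hmem n x hx
  refine hcov.integrable_of_integral_bounded_of_nonneg_ae K hint
    (Eventually.of_forall hf0) (Eventually.of_forall fun n => ?_)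
  calc ∫ x in Metric.closedBall (0 : E3) ((n : ℝ) + 1), f x
      ≤ ∫ x in Metric.closedBall (0 : E3) ((n : ℝ) + 1), fR n x :=
        setIntegral_mono_on (hint n) (hI n).integrableOn
          Metric.isClosed_closedBall.measurableSet (hmem n)
    _ ≤ ∫ x, fR n x := setIntegral_le_integral (hI n) (Eventually.of_forall (hn n))
    _ ≤ K := hK n

/-- `R/(R+r)` -/
noncomputable def qq (R r : ℝ) : ℝ := R / (R + r)

theorem qq_pos {R r : ℝ} (hR : 0 < R) (hr : 0 ≤ r) : 0 < qq R r := by unfold qq; positivity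

theorem qq_le {R r : ℝ} (hR : 0 < R) (hr : 0 ≤ r) : qq R r ≤ 1 := by
  unfold qq
  rw [div_le_one (by positivity)]
  linarith

theorem qq_mul {R r : ℝ} (hR : 0 < R) (hr : 0 ≤ r) : r * qq R r ≤ R := by
  unfold qq
  rw [mul_div_assoc', div_le_iff₀ (by positivity)]
  nlinarith

theorem qq_der {R r : ℝ} (hR : 0 < R) (hr : 0 < r) (a b : ℕ) :
    HasDerivAt (fun r => r ^ (a + 1) * qq R r ^ b)
      (r ^ a * (((a + 1 : ℕ) : ℝ) * qq R r ^ b - b * qq R r ^ b + b * qq R r ^ (b + 1))) r := by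
  have hp : 0 < R + r := by positivity
  have h1 : HasDerivAt (qq R) (-(R / (R + r) ^ 2)) r := by
    have h0 := ((hasDerivAt_id r).const_add R).inv hp.ne'
    have h2 := h0.const_mul R
    have h3 : HasDerivAt (qq R) (R * (-1 / (R + r) ^ 2)) r := h2
    exact h3.congr_deriv (by ring)
  have hq : r * -(R / (R + r) ^ 2) = qq R r ^ 2 - qq R r := by
    unfold qq
    field_simp
    ring
  have h2 := (hasDerivAt_pow (a + 1) r).mul (h1.pow b)
  refine h2.congr_deriv ?_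
  rcases b with _ | b
  · simp; ring
  · simp only [Nat.add_sub_cancel, Pi.pow_apply]
    push_cast
    linear_combination (r ^ a * ((b:ℝ) + 1) * qq R r ^ b) * hq

theorem qq_cont {R : ℝ} (hR : 0 < R) : ContinuousOn (qq R) (Ioi 0) := by
  unfold qq
  apply ContinuousOn.div continuousOn_const (by fun_prop)
  intro r hr
  have : (0:ℝ) < r := hr
  positivity

theorem qq_half {R r : ℝ} (hR : 0 < R) (hr : 0 ≤ r) (h : r ≤ R) : 1 ≤ 2 * qq R r := by
  unfold qq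
  rw [mul_div_assoc', le_div_iff₀ (by positivity)]
  linarith

theorem rq_pow_le {R r : ℝ} (hR : 0 < R) (hr : 0 ≤ r) (j : ℕ) : r ^ j * qq R r ^ j ≤ R ^ j := by
  rw [← mul_pow]
  have := (qq_pos hR hr).le
  exact pow_le_pow_left₀ (by positivity) (qq_mul hR hr) j

theorem ae_ne0 : ∀ᵐ x : E3, x ≠ 0 := by
  have : ∀ᵐ x : E3, x ∉ ({0} : Set E3) := measure_eq_zero_iff_ae_notMem.1 (measure_singleton 0)
  filter_upwards [this] with x hx
  simpa using hx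

theorem rn_div_le {r : ℝ} (hr : 0 < r) (n : ℕ) : r ^ n / r ≤ 1 / r + r ^ n := by
  rcases le_total r 1 with h | h
  · have h1 : r ^ n ≤ 1 := pow_le_one₀ hr.le h
    have : r ^ n / r ≤ 1 / r := by gcongr
    have h2 : 0 ≤ r ^ n := by positivity
    linarith
  · have : r ^ n / r ≤ r ^ n := div_le_self (by positivity) h
    have h2 : 0 ≤ 1 / r := by positivity
    linarith

theorem alg1 {n : ℕ} {r q X Y U g c : ℝ} (hr : 0 < r) (hq : 0 < q) (hq1 : q ≤ 1)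
    (hg : X ^ 2 ≤ g) (_hX : 0 ≤ X) (_hY : 0 ≤ Y) (hU : |U| ≤ Y * X)
    (hc : c = ((n:ℝ) + 2) * (n + 3) / 2 + 1) :
    1 / 2 * (r ^ (n + 1) * q ^ (n + 3) * g) ≤
      (((n:ℝ) + 2) * r ^ (n + 1) * q ^ (n + 3) * X ^ 2 +
        r ^ (n + 2) * q ^ (n + 2) / r * (g - X ^ 2))
      - 1 / 2 * (r ^ (n + 2) * q ^ (n + 2) / r ^ 2 * Y ^ 2)
      + r ^ n * (((n:ℝ) + 2) * (n + 3) / 2 * q ^ (n + 4) - q ^ (n + 2)) * U
      + (1 / 2 + c ^ 2 / (2 * (n + 2))) * ((1 / r + r ^ n) * Y ^ 2) := by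
  have hn : (0:ℝ) < n + 2 := by positivity
  have e1 : r ^ (n + 2) * q ^ (n + 2) / r = r ^ (n + 1) * q ^ (n + 2) := by
    field_simp
    ring
  have e2 : r ^ (n + 2) * q ^ (n + 2) / r ^ 2 = r ^ n * q ^ (n + 2) := by
    field_simp
    ring
  rw [e1, e2]
  have hqn : 0 < q ^ (n + 2) := by positivity
  have hrn : 0 < r ^ n := by positivity
  -- coefficient bound
  have hcb : |((n:ℝ) + 2) * (n + 3) / 2 * q ^ (n + 4) - q ^ (n + 2)| ≤ c * q ^ (n + 2) := by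
    have h4 : q ^ (n + 4) ≤ q ^ (n + 2) := pow_le_pow_of_le_one hq.le hq1 (by omega)
    have h5 : 0 < q ^ (n + 4) := by positivity
    have h6 : 0 ≤ ((n:ℝ) + 2) * (n + 3) / 2 := by positivity
    rw [abs_le, hc]
    constructor
    · nlinarith
    · nlinarith
  have hc0 : 0 ≤ c := by rw [hc]; positivity
  have hA3 : -(c * (r ^ n * q ^ (n + 2)) * (Y * X)) ≤
      r ^ n * (((n:ℝ) + 2) * (n + 3) / 2 * q ^ (n + 4) - q ^ (n + 2)) * U := by
    have h1 : |r ^ n * (((n:ℝ) + 2) * (n + 3) / 2 * q ^ (n + 4) - q ^ (n + 2)) * U| ≤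
        c * (r ^ n * q ^ (n + 2)) * (Y * X) := by
      rw [abs_mul, abs_mul, abs_of_pos hrn]
      calc r ^ n * |((n:ℝ) + 2) * (n + 3) / 2 * q ^ (n + 4) - q ^ (n + 2)| * |U|
          ≤ r ^ n * (c * q ^ (n + 2)) * (Y * X) := by gcongr
        _ = _ := by ring
    exact (abs_le.1 h1).1
  -- absorb
  have hab : c * (r ^ n * q ^ (n + 2)) * (Y * X) ≤
      ((n:ℝ) + 2) / 2 * (r ^ (n + 1) * q ^ (n + 3) * X ^ 2) +
        c ^ 2 / (2 * (n + 2)) * (r ^ n / r * Y ^ 2) := by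
    have h1 : c * Y * (q * X) ≤ ((n:ℝ) + 2) / 2 * (r * (q * X) ^ 2) +
        c ^ 2 / (2 * (n + 2)) * (1 / r * Y ^ 2) := by
      have h2 : ((n:ℝ) + 2) / 2 * (r * (q * X) ^ 2) + c ^ 2 / (2 * (n + 2)) * (1 / r * Y ^ 2) -
          c * Y * (q * X) = (((n:ℝ) + 2) * r * (q * X) - c * Y) ^ 2 / (2 * (n + 2) * r) := by
        field_simp
        ring
      have h3 : 0 ≤ (((n:ℝ) + 2) * r * (q * X) - c * Y) ^ 2 / (2 * (n + 2) * r) := by positivity
      linarith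
    have hq2 : q ^ (n + 1) ≤ 1 := pow_le_one₀ hq.le hq1
    calc c * (r ^ n * q ^ (n + 2)) * (Y * X) = r ^ n * q ^ (n + 1) * (c * Y * (q * X)) := by ring
      _ ≤ r ^ n * q ^ (n + 1) * (((n:ℝ) + 2) / 2 * (r * (q * X) ^ 2) +
        c ^ 2 / (2 * (n + 2)) * (1 / r * Y ^ 2)) := by gcongr
      _ = ((n:ℝ) + 2) / 2 * (r ^ (n + 1) * q ^ (n + 3) * X ^ 2) +
        c ^ 2 / (2 * (n + 2)) * (r ^ n / r * Y ^ 2) * q ^ (n + 1) := by ring
      _ ≤ ((n:ℝ) + 2) / 2 * (r ^ (n + 1) * q ^ (n + 3) * X ^ 2) +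
        c ^ 2 / (2 * (n + 2)) * (r ^ n / r * Y ^ 2) * 1 := by gcongr
      _ = _ := by ring
  have hW1 : r ^ n / r * Y ^ 2 ≤ (1 / r + r ^ n) * Y ^ 2 := by
    gcongr
    exact rn_div_le hr n
  have hW2 : r ^ n * q ^ (n + 2) * Y ^ 2 ≤ (1 / r + r ^ n) * Y ^ 2 := by
    have : q ^ (n + 2) ≤ 1 := pow_le_one₀ hq.le hq1
    have h2 : r ^ n * q ^ (n + 2) ≤ r ^ n * 1 := by gcongr
    have h3 : 0 ≤ 1 / r := by positivity
    gcongr
    linarith
  have hcc : 0 ≤ c ^ 2 / (2 * ((n:ℝ) + 2)) := by positivity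
  have hW1' := mul_le_mul_of_nonneg_left hW1 hcc
  have hmain : 1 / 2 * (r ^ (n + 1) * q ^ (n + 3) * g) ≤
      ((n:ℝ) + 2) / 2 * (r ^ (n + 1) * q ^ (n + 3) * X ^ 2) +
        r ^ (n + 1) * q ^ (n + 2) * (g - X ^ 2) := by
    have h3 : q ^ (n + 3) ≤ q ^ (n + 2) := pow_le_pow_of_le_one hq.le hq1 (by omega)
    have h4 : 0 ≤ g - X ^ 2 := by linarith
    have h5 : 0 ≤ r ^ (n + 1) * q ^ (n + 3) * X ^ 2 := by positivity
    have h6 : r ^ (n + 1) * q ^ (n + 3) * (g - X ^ 2) ≤ r ^ (n + 1) * q ^ (n + 2) * (g - X ^ 2) := by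
      gcongr
    have h7 : 0 ≤ r ^ (n + 1) * q ^ (n + 3) * (g - X ^ 2) := by positivity
    have h8 : (0:ℝ) ≤ n := by positivity
    nlinarith
  linarith

/-- the weight `1/r + r^n` -/
theorem int_W (hB : T_hb) {u : E3 → ℂ} {G : Fin 3 → E3 → ℂ} (hu : IsH1 u G) {n : ℕ}
    (hA : Integrable (fun x => ‖x‖ ^ n * ‖u x‖ ^ 2)) :
    Integrable (fun x => (1 / ‖x‖ + ‖x‖ ^ n) * ‖u x‖ ^ 2) := by
  have h1 := (((hB u G hu).1 0).1).add hA
  refine h1.congr (Eventually.of_forall fun x => ?_)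
  simp only [Pi.add_apply, zero_sub, norm_neg]
  ring

theorem kin_bound (hPB : T_pb) (hS : T_sym) (hB : T_hb) {u : E3 → ℂ} {lam : ℝ}
    {G : Fin 3 → E3 → ℂ} (hs : IsSol u lam) (hu : IsH1 u G) (n : ℕ)
    (hA : Integrable (fun x => ‖x‖ ^ n * ‖u x‖ ^ 2)) {c : ℝ}
    (hc : c = ((n:ℝ) + 2) * (n + 3) / 2 + 1) {R : ℝ} (hR : 0 < R) :
    Integrable (fun x => ‖x‖ ^ (n + 1) * qq R ‖x‖ ^ (n + 3) * g2 G x) ∧
    1 / 2 * ∫ x, ‖x‖ ^ (n + 1) * qq R ‖x‖ ^ (n + 3) * g2 G x ≤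
      (1 / 2 + c ^ 2 / (2 * (n + 2))) * ∫ x, (1 / ‖x‖ + ‖x‖ ^ n) * ‖u x‖ ^ 2 := by
  set q : ℝ → ℝ := qq R with hq
  have hqc : ContinuousOn q (Ioi 0) := qq_cont hR
  have hqp : ∀ r, 0 < r → 0 < q r := fun r hr => qq_pos hR hr.le
  have hq1 : ∀ r, 0 < r → q r ≤ 1 := fun r hr => qq_le hR hr.le
  set B : ℝ → ℝ := fun r => r ^ (n + 2) * q r ^ (n + 2) with hBd
  set B1 : ℝ → ℝ := fun r => ((n:ℝ) + 2) * r ^ (n + 1) * q r ^ (n + 3) with hB1d
  set h1 : ℝ → ℝ := fun r => r ^ n * (((n:ℝ) + 2) * (n + 3) / 2 * q r ^ (n + 4) - q r ^ (n + 2))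
    with hh1d
  have hder : ∀ r, 0 < r → HasDerivAt B (B1 r) r := by
    intro r hr
    refine (qq_der hR hr (n + 1) (n + 2)).congr_deriv ?_
    simp only [hB1d]
    push_cast
    ring
  have hC1 : C1 B B1 := ⟨hder, by fun_prop⟩
  have hC1' : C1 (fun r => B1 r / 2 + B r / r) h1 := by
    refine ⟨fun r hr => ?_, by fun_prop⟩
    have a1 := (qq_der hR hr n (n + 3)).const_mul (((n:ℝ) + 2) / 2)
    have a2 := qq_der hR hr n (n + 2)
    have a3 := a1.add a2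
    refine (HasDerivAt.congr_of_eventuallyEq (f₁ := fun r => B1 r / 2 + B r / r) a3
      ?_).congr_deriv ?_
    · filter_upwards [Ioi_mem_nhds hr] with t ht
      have ht' : (0:ℝ) < t := ht
      simp only [Pi.add_apply, hBd, hB1d]
      rw [show t ^ (n + 2) = t ^ (n + 1) * t by ring]
      field_simp
      rfl
    · simp only [hh1d]
      push_cast
      ring
  have hRn : ∀ j : ℕ, 0 < R ^ j := fun j => by positivity
  have hc0 : 0 ≤ c := by rw [hc]; positivity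
  -- bounds
  have bB : ∀ r, 0 < r → 0 ≤ B r ∧ B r ≤ R ^ (n + 2) ∧ B r ≤ R ^ (n + 1) * r := by
    intro r hr
    have hqr := hqp r hr
    refine ⟨by positivity, rq_pow_le hR hr.le (n + 2), ?_⟩
    have a := rq_pow_le hR hr.le (n + 1)
    calc B r = (r ^ (n + 1) * q r ^ (n + 1)) * (q r * r) := by simp only [hBd]; ring
      _ ≤ R ^ (n + 1) * (1 * r) := by
          gcongr
          exact hq1 r hr
      _ = _ := by ring
  have bB1 : ∀ r, 0 < r → |B1 r| ≤ (n + 2) * R ^ (n + 1) := by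
    intro r hr
    have hqr := hqp r hr
    have a := rq_pow_le hR hr.le (n + 1)
    have b : q r ^ 2 ≤ 1 := pow_le_one₀ hqr.le (hq1 r hr)
    rw [abs_of_nonneg (by positivity)]
    calc B1 r = (n + 2) * (r ^ (n + 1) * q r ^ (n + 1)) * q r ^ 2 := by simp only [hB1d]; ring
      _ ≤ (n + 2) * R ^ (n + 1) * 1 := by gcongr
      _ = _ := mul_one _
  have bh1 : ∀ r, 0 < r → |h1 r| ≤ c * R ^ n := by
    intro r hr
    have hqr := hqp r hr
    have a := rq_pow_le hR hr.le n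
    have b2 : q r ^ 2 ≤ 1 := pow_le_one₀ hqr.le (hq1 r hr)
    have b4 : q r ^ 4 ≤ 1 := pow_le_one₀ hqr.le (hq1 r hr)
    have e : h1 r = (r ^ n * q r ^ n) * (((n:ℝ) + 2) * (n + 3) / 2 * q r ^ 4 - q r ^ 2) := by
      simp only [hh1d]; ring
    have h0 : |((n:ℝ) + 2) * (n + 3) / 2 * q r ^ 4 - q r ^ 2| ≤ c := by
      have p4 : 0 ≤ q r ^ 4 := by positivity
      have p2 : 0 ≤ q r ^ 2 := by positivity
      have pn : 0 ≤ ((n:ℝ) + 2) * (n + 3) / 2 := by positivity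
      rw [abs_le, hc]
      constructor <;> nlinarith
    rw [e, abs_mul, abs_of_nonneg (by positivity : 0 ≤ r ^ n * q r ^ n)]
    calc r ^ n * q r ^ n * |((n:ℝ) + 2) * (n + 3) / 2 * q r ^ 4 - q r ^ 2| ≤ R ^ n * c := by
          gcongr
      _ = _ := mul_comm _ _
  set D : ℝ := R ^ (n + 2) + R ^ (n + 1) + (n + 2) * R ^ (n + 1) + c * R ^ n with hD
  have pR1 := (hRn (n + 1)).le
  have pR2 := (hRn (n + 2)).le
  have pcR : 0 ≤ c * R ^ n := by positivity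
  have pnR : 0 ≤ ((n:ℝ) + 2) * R ^ (n + 1) := by positivity
  have hDb : ∀ r, 0 < r → |B r| ≤ D ∧ |B r| ≤ D * r ∧ |B1 r| ≤ D ∧ |h1 r| ≤ D := by
    intro r hr
    obtain ⟨x1, x2, x3⟩ := bB r hr
    refine ⟨?_, ?_, ?_, ?_⟩
    · rw [abs_of_nonneg x1]; linarith
    · rw [abs_of_nonneg x1]
      refine x3.trans ?_
      gcongr
      linarith
    · have := bB1 r hr; linarith
    · have := bh1 r hr; linarith
  have hid := hPB u lam G hs hu B B1 h1 D hC1 hC1' hDb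
  -- monotonicity
  have hBc : ContinuousOn B (Ioi 0) := fun r hr => (hder r hr).continuousAt.continuousWithinAt
  have hmono : MonotoneOn B (Ioi 0) := by
    intro r hr t ht hrt
    have hr' : (0:ℝ) < r := hr
    have ht' : (0:ℝ) < t := ht
    have h0 : r * q r ≤ t * q t := by
      simp only [hq, qq]
      rw [mul_div_assoc', mul_div_assoc', div_le_div_iff₀ (by positivity) (by positivity)]
      nlinarith [mul_pos hR hR]
    have hqr := hqp r hr'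
    simp only [hBd]
    rw [← mul_pow, ← mul_pow]
    gcongr
  have hsym := hS u G hu B D hBc hmono (fun r hr => ⟨(bB r hr).1, by
    have := (bB r hr).2.1; linarith, by
    refine (bB r hr).2.2.trans ?_
    gcongr
    linarith⟩)
  -- integrability
  have iW := int_W hB hu hA
  have iA1 : Integrable (fun x : E3 => B1 ‖x‖ * ‖dr G x‖ ^ 2 +
      B ‖x‖ / ‖x‖ * (g2 G x - ‖dr G x‖ ^ 2)) := by
    refine (int_rad_mul hC1.cont bB1 (int_dr2 hu)).add ?_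
    refine int_rad_mul (f := fun r => B r / r) (C := R ^ (n + 1)) ?_ ?_
      ((int_g2 hu).sub (int_dr2 hu))
    · exact hBc.div continuousOn_id (fun r hr => ne_of_gt hr)
    · intro r hr
      rw [abs_div, abs_of_pos hr, div_le_iff₀ hr, abs_of_nonneg (bB r hr).1]
      exact (bB r hr).2.2
  have iA2 : Integrable (fun x : E3 => B ‖x‖ / ‖x‖ ^ 2 * ‖u x‖ ^ 2) := by
    refine int_rad_mul (f := fun r => B r / r ^ 2) (C := R ^ n) ?_ ?_ (int_u2 hu)
    · exact hBc.div (continuousOn_pow 2) (fun r hr => pow_ne_zero 2 (ne_of_gt hr))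
    · intro r hr
      have hqr := hqp r hr
      rw [abs_of_nonneg (by have := (bB r hr).1; positivity)]
      have e : B r / r ^ 2 = (r ^ n * q r ^ n) * q r ^ 2 := by
        simp only [hBd]
        field_simp
        ring
      rw [e]
      have b2 : q r ^ 2 ≤ 1 := pow_le_one₀ hqr.le (hq1 r hr)
      calc _ ≤ R ^ n * 1 := by
            gcongr
            exact rq_pow_le hR hr.le n
        _ = _ := mul_one _
  have iA3 : Integrable (fun x : E3 => h1 ‖x‖ * ur u G x) :=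
    int_rad_mul hC1'.cont bh1 (int_ur hu)
  have iL : Integrable (fun x => ‖x‖ ^ (n + 1) * q ‖x‖ ^ (n + 3) * g2 G x) := by
    refine int_rad_mul (f := fun r => r ^ (n + 1) * q r ^ (n + 3)) (C := R ^ (n + 1)) ?_ ?_
      (int_g2 hu)
    · fun_prop
    · intro r hr
      have hqr := hqp r hr
      rw [abs_of_nonneg (by positivity)]
      have b2 : q r ^ 2 ≤ 1 := pow_le_one₀ hqr.le (hq1 r hr)
      calc r ^ (n + 1) * q r ^ (n + 3) = (r ^ (n + 1) * q r ^ (n + 1)) * q r ^ 2 := by ring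
        _ ≤ R ^ (n + 1) * 1 := by
            gcongr
            exact rq_pow_le hR hr.le (n + 1)
        _ = _ := mul_one _
  refine ⟨iL, ?_⟩
  -- the pointwise inequality
  have hpt : ∀ᵐ x : E3, 1 / 2 * (‖x‖ ^ (n + 1) * q ‖x‖ ^ (n + 3) * g2 G x) ≤
      (B1 ‖x‖ * ‖dr G x‖ ^ 2 + B ‖x‖ / ‖x‖ * (g2 G x - ‖dr G x‖ ^ 2))
      - 1 / 2 * (B ‖x‖ / ‖x‖ ^ 2 * ‖u x‖ ^ 2) + h1 ‖x‖ * ur u G x
      + (1 / 2 + c ^ 2 / (2 * (n + 2))) * ((1 / ‖x‖ + ‖x‖ ^ n) * ‖u x‖ ^ 2) := by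
    filter_upwards [ae_ne0] with x hx
    have hx' : 0 < ‖x‖ := norm_pos_iff.2 hx
    exact alg1 hx' (hqp _ hx') (hq1 _ hx') (dr_sq_le G x) (norm_nonneg _) (norm_nonneg _)
      (ur_le u G x) hc
  have hint := integral_mono_ae (iL.const_mul (1 / 2)) (((iA1.sub (iA2.const_mul (1 / 2))).add
    iA3).add (iW.const_mul (1 / 2 + c ^ 2 / (2 * (n + 2))))) hpt
  rw [integral_const_mul, integral_add' ((iA1.sub (iA2.const_mul (1 / 2))).add
    iA3) (iW.const_mul (1 / 2 + c ^ 2 / (2 * (n + 2)))), integral_add' (iA1.sub (iA2.const_mul (1 / 2)))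
    iA3, integral_sub' iA1 (iA2.const_mul (1 / 2)), integral_const_mul, integral_const_mul, hid] at hint
  linarith

theorem mass_bound (hE : T_eh) (hB : T_hb) {u : E3 → ℂ} {lam : ℝ}
    {G : Fin 3 → E3 → ℂ} (hs : IsSol u lam) (hu : IsH1 u G) (hl : 0 < lam) (n : ℕ)
    (hA : Integrable (fun x => ‖x‖ ^ n * ‖u x‖ ^ 2))
    (hK : Integrable (fun x => ‖x‖ ^ (n + 1) * g2 G x)) :
    ∃ K : ℝ, ∀ R, 0 < R →
    Integrable (fun x => ‖x‖ ^ (n + 1) * qq R ‖x‖ ^ (n + 1) * ‖u x‖ ^ 2) ∧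
    ∫ x, ‖x‖ ^ (n + 1) * qq R ‖x‖ ^ (n + 1) * ‖u x‖ ^ 2 ≤ K := by
  obtain ⟨M, hM0, hMb⟩ := hartree_bd hB hu
  obtain ⟨R1, hR1, hRb⟩ := (hB u G hu).2.2.1 (lam / 2) (by positivity)
  have iW := int_W hB hu hA
  set K1 : ℝ := (∫ x, ‖x‖ ^ (n + 1) * g2 G x) + (n + 1) * ((∫ x, ‖x‖ ^ (n + 1) * g2 G x)
    + ∫ x, (1 / ‖x‖ + ‖x‖ ^ n) * ‖u x‖ ^ 2) + M * R1 ^ (n + 1) * ∫ x, ‖u x‖ ^ 2 with hK1
  refine ⟨2 / lam * K1, fun R hR => ?_⟩
  set q : ℝ → ℝ := qq R with hq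
  have hqc : ContinuousOn q (Ioi 0) := qq_cont hR
  have hqp : ∀ r, 0 < r → 0 < q r := fun r hr => qq_pos hR hr.le
  have hq1 : ∀ r, 0 < r → q r ≤ 1 := fun r hr => qq_le hR hr.le
  set h : ℝ → ℝ := fun r => r ^ (n + 1) * q r ^ (n + 1) with hh
  set h1 : ℝ → ℝ := fun r => ((n:ℝ) + 1) * r ^ n * q r ^ (n + 2) with hh1
  have hC1 : C1 h h1 := by
    refine ⟨fun r hr => ?_, by fun_prop⟩
    refine (qq_der hR hr n (n + 1)).congr_deriv ?_
    simp only [hh1]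
    push_cast
    ring
  have hRn : ∀ j : ℕ, 0 < R ^ j := fun j => by positivity
  have bh : ∀ r, 0 < r → |h r| ≤ R ^ (n + 1) := by
    intro r hr
    have hqr := hqp r hr
    rw [abs_of_nonneg (by positivity)]
    exact rq_pow_le hR hr.le (n + 1)
  have bh1 : ∀ r, 0 < r → |h1 r| ≤ (n + 1) * R ^ n := by
    intro r hr
    have hqr := hqp r hr
    have a := rq_pow_le hR hr.le n
    have b : q r ^ 2 ≤ 1 := pow_le_one₀ hqr.le (hq1 r hr)
    rw [abs_of_nonneg (by positivity)]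
    calc h1 r = (n + 1) * (r ^ n * q r ^ n) * q r ^ 2 := by simp only [hh1]; ring
      _ ≤ (n + 1) * R ^ n * 1 := by gcongr
      _ = _ := mul_one _
  have hid := hE u lam G hs hu h h1 (R ^ (n + 1) + (n + 1) * R ^ n) hC1 (fun r hr => by
    have p1 := (hRn (n + 1)).le
    have p2 : 0 ≤ ((n:ℝ) + 1) * R ^ n := by have := hRn n; positivity
    exact ⟨(bh r hr).trans (by linarith), (bh1 r hr).trans (by linarith)⟩)
  have hc := hC1.cont
  have hhc : ContinuousOn h (Ioi 0) := fun r hr => (hC1.der r hr).continuousAt.continuousWithinAt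
  have i0 : Integrable (fun x : E3 => h ‖x‖ * ‖u x‖ ^ 2) := int_rad_mul hhc bh (int_u2 hu)
  have i1 : Integrable (fun x : E3 => h ‖x‖ * g2 G x) := int_rad_mul hhc bh (int_g2 hu)
  have i2 : Integrable (fun x : E3 => h1 ‖x‖ * ur u G x) := int_rad_mul hc bh1 (int_ur hu)
  have i3 : Integrable (fun x : E3 => h ‖x‖ / ‖x‖ * ‖u x‖ ^ 2) := by
    refine int_rad_mul (f := fun r => h r / r) (C := R ^ n) ?_ ?_ (int_u2 hu)
    · exact hhc.div continuousOn_id (fun r hr => ne_of_gt hr)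
    · intro r hr
      have hqr := hqp r hr
      rw [abs_of_nonneg (by positivity)]
      have e : h r / r = (r ^ n * q r ^ n) * q r := by
        simp only [hh]
        field_simp
        ring
      rw [e]
      calc _ ≤ R ^ n * 1 := by
            gcongr
            · exact rq_pow_le hR hr.le n
            · exact hq1 r hr
        _ = _ := mul_one _
  have i4 : Integrable (fun x : E3 => h ‖x‖ * ‖u x‖ ^ 2 * hartree u x) := int_mul_hartree hB hu i0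
  refine ⟨i0, ?_⟩
  -- pointwise inequalities
  have p1 : ∀ᵐ x : E3, lam / 2 * (h ‖x‖ * ‖u x‖ ^ 2) ≤
      lam * (h ‖x‖ * ‖u x‖ ^ 2) - h ‖x‖ * ‖u x‖ ^ 2 * hartree u x
        + M * R1 ^ (n + 1) * ‖u x‖ ^ 2 := by
    filter_upwards [ae_ne0] with x hx
    have hx' : 0 < ‖x‖ := norm_pos_iff.2 hx
    have hqr := hqp _ hx'
    have hh0 : 0 ≤ h ‖x‖ := by positivity
    have hu0 : 0 ≤ ‖u x‖ ^ 2 := by positivity
    obtain ⟨m0, m1⟩ := hMb x
    have key : h ‖x‖ * hartree u x ≤ lam / 2 * h ‖x‖ + M * R1 ^ (n + 1) := by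
      rcases le_total R1 ‖x‖ with h2 | h2
      · have := hRb x h2
        have h3 : h ‖x‖ * hartree u x ≤ h ‖x‖ * (lam / 2) := by gcongr
        have h4 : 0 ≤ M * R1 ^ (n + 1) := by positivity
        linarith
      · have h3 : h ‖x‖ ≤ R1 ^ (n + 1) := by
          have : q ‖x‖ ^ (n + 1) ≤ 1 := pow_le_one₀ hqr.le (hq1 _ hx')
          calc h ‖x‖ ≤ R1 ^ (n + 1) * 1 := by simp only [hh]; gcongr
            _ = _ := mul_one _
        have h4 : h ‖x‖ * hartree u x ≤ R1 ^ (n + 1) * M := by gcongr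
        have h5 : 0 ≤ lam / 2 * h ‖x‖ := by positivity
        linarith
    have := mul_le_mul_of_nonneg_right key hu0
    linarith
  have p2 : ∀ᵐ x : E3, h ‖x‖ * g2 G x + h1 ‖x‖ * ur u G x ≤
      ‖x‖ ^ (n + 1) * g2 G x + (n + 1) * (‖x‖ ^ (n + 1) * g2 G x +
        (1 / ‖x‖ + ‖x‖ ^ n) * ‖u x‖ ^ 2) := by
    filter_upwards [ae_ne0] with x hx
    have hx' : 0 < ‖x‖ := norm_pos_iff.2 hx
    have hqr := hqp _ hx'
    have hg := g2_nonneg G x
    have hd := dr_sq_le G x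
    have a1 : h ‖x‖ * g2 G x ≤ ‖x‖ ^ (n + 1) * g2 G x := by
      have : q ‖x‖ ^ (n + 1) ≤ 1 := pow_le_one₀ hqr.le (hq1 _ hx')
      calc h ‖x‖ * g2 G x ≤ (‖x‖ ^ (n + 1) * 1) * g2 G x := by simp only [hh]; gcongr
        _ = _ := by ring
    have a2 : h1 ‖x‖ * ur u G x ≤ (n + 1) * (‖x‖ ^ n * (‖u x‖ * ‖dr G x‖)) := by
      have b0 : h1 ‖x‖ ≤ (n + 1) * ‖x‖ ^ n := by
        have : q ‖x‖ ^ (n + 2) ≤ 1 := pow_le_one₀ hqr.le (hq1 _ hx')
        calc h1 ‖x‖ ≤ (n + 1) * ‖x‖ ^ n * 1 := by simp only [hh1]; gcongr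
          _ = _ := mul_one _
      have b1 : 0 ≤ h1 ‖x‖ := by positivity
      calc h1 ‖x‖ * ur u G x ≤ h1 ‖x‖ * (‖u x‖ * ‖dr G x‖) := by
            gcongr
            exact (le_abs_self _).trans (ur_le u G x)
        _ ≤ ((n + 1) * ‖x‖ ^ n) * (‖u x‖ * ‖dr G x‖) := by gcongr
        _ = _ := by ring
    have a3 : ‖x‖ ^ n * (‖u x‖ * ‖dr G x‖) ≤ ‖x‖ ^ (n + 1) * g2 G x +
        (1 / ‖x‖ + ‖x‖ ^ n) * ‖u x‖ ^ 2 := by
      have c1 : ‖u x‖ * ‖dr G x‖ ≤ ‖x‖ * ‖dr G x‖ ^ 2 + 1 / ‖x‖ * ‖u x‖ ^ 2 := by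
        have e : ‖x‖ * ‖dr G x‖ ^ 2 + 1 / ‖x‖ * ‖u x‖ ^ 2 - ‖u x‖ * ‖dr G x‖ =
            ((‖x‖ * ‖dr G x‖ - ‖u x‖) ^ 2 + ‖x‖ * ‖dr G x‖ * ‖u x‖) / ‖x‖ := by
          field_simp
          ring
        have : 0 ≤ ((‖x‖ * ‖dr G x‖ - ‖u x‖) ^ 2 + ‖x‖ * ‖dr G x‖ * ‖u x‖) / ‖x‖ := by positivity
        linarith
      calc ‖x‖ ^ n * (‖u x‖ * ‖dr G x‖) ≤
          ‖x‖ ^ n * (‖x‖ * ‖dr G x‖ ^ 2 + 1 / ‖x‖ * ‖u x‖ ^ 2) := by gcongr
        _ = ‖x‖ ^ (n + 1) * ‖dr G x‖ ^ 2 + ‖x‖ ^ n / ‖x‖ * ‖u x‖ ^ 2 := by ring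
        _ ≤ ‖x‖ ^ (n + 1) * g2 G x + (1 / ‖x‖ + ‖x‖ ^ n) * ‖u x‖ ^ 2 := by
            gcongr
            exact rn_div_le hx' n
    have a4 := mul_le_mul_of_nonneg_left a3 (by positivity : (0:ℝ) ≤ (n:ℝ) + 1)
    linarith
  have q1 := integral_mono_ae (i0.const_mul (lam / 2)) (((i0.const_mul lam).sub i4).add
    ((int_u2 hu).const_mul (M * R1 ^ (n + 1)))) p1
  rw [integral_const_mul, integral_add' ((i0.const_mul lam).sub i4)
    ((int_u2 hu).const_mul (M * R1 ^ (n + 1))), integral_sub' (i0.const_mul lam) i4,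
    integral_const_mul, integral_const_mul] at q1
  have q2 := integral_mono_ae (i1.add i2) (hK.add ((hK.add iW).const_mul (n + 1))) p2
  rw [integral_add' i1 i2, integral_add' hK ((hK.add iW).const_mul (n + 1)), integral_const_mul,
    integral_add' hK iW] at q2
  have q3 : 0 ≤ ∫ x, h ‖x‖ / ‖x‖ * ‖u x‖ ^ 2 := by
    refine integral_nonneg_of_ae ?_
    filter_upwards [ae_ne0] with x hx
    have hx' : 0 < ‖x‖ := norm_pos_iff.2 hx
    have hqr := hqp _ hx'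
    have hh0 : 0 ≤ h ‖x‖ := by positivity
    change 0 ≤ h ‖x‖ / ‖x‖ * ‖u x‖ ^ 2
    positivity
  have q4 : lam / 2 * ∫ x, h ‖x‖ * ‖u x‖ ^ 2 ≤ K1 := by
    rw [hK1]
    linarith
  have q5 : ∫ x, h ‖x‖ * ‖u x‖ ^ 2 = 2 / lam * (lam / 2 * ∫ x, h ‖x‖ * ‖u x‖ ^ 2) := by
    field_simp
  change ∫ x, h ‖x‖ * ‖u x‖ ^ 2 ≤ 2 / lam * K1
  rw [q5]
  gcongr

theorem momp (hPB : T_pb) (hS : T_sym) (hE : T_eh) (hB : T_hb) : T_momp := by
  intro u lam G hs hu hl n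
  induction n with
  | zero =>
    constructor
    · simpa using int_u2 hu
    · simpa using int_g2 hu
  | succ n ih =>
    obtain ⟨hA, -⟩ := ih
    have hmp : ∀ j : ℕ, Measurable (fun x : E3 => ‖x‖ ^ j) := fun j => by fun_prop
    -- kinetic part
    have hK : Integrable (fun x => ‖x‖ ^ (n + 1) * g2 G x) := by
      set c : ℝ := ((n:ℝ) + 2) * (n + 3) / 2 + 1 with hc
      have hb := fun m : ℕ => kin_bound hPB hS hB hs hu n hA hc (R := (m:ℝ) + 1) (by positivity)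
      refine cover ((hmp _).aestronglyMeasurable.mul (int_g2 hu).1)
        (fun x => by have := g2_nonneg G x; positivity)
        (fun m x => 2 ^ (n + 3) * (‖x‖ ^ (n + 1) * qq ((m:ℝ) + 1) ‖x‖ ^ (n + 3) * g2 G x))
        (fun m => (hb m).1.const_mul _) (fun m x => ?_)
        (2 ^ (n + 3) * (2 * ((1 / 2 + c ^ 2 / (2 * (n + 2))) *
          ∫ x, (1 / ‖x‖ + ‖x‖ ^ n) * ‖u x‖ ^ 2))) (fun m => ?_) (fun m x hx => ?_)
      · have := g2_nonneg G x
        have := qq_pos (R := (m:ℝ) + 1) (by positivity) (norm_nonneg x)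
        positivity
      · rw [integral_const_mul]
        have := (hb m).2
        gcongr
        linarith
      · have h1 := qq_half (R := (m:ℝ) + 1) (by positivity) (norm_nonneg x) hx
        have h2 : 1 ≤ (2 * qq ((m:ℝ) + 1) ‖x‖) ^ (n + 3) := one_le_pow₀ h1
        have hg := g2_nonneg G x
        calc ‖x‖ ^ (n + 1) * g2 G x = ‖x‖ ^ (n + 1) * g2 G x * 1 := (mul_one _).symm
          _ ≤ ‖x‖ ^ (n + 1) * g2 G x * (2 * qq ((m:ℝ) + 1) ‖x‖) ^ (n + 3) := by gcongr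
          _ = _ := by rw [mul_pow]; ring
    refine ⟨?_, hK⟩
    obtain ⟨K, hb⟩ := mass_bound hE hB hs hu hl n hA hK
    refine cover ((hmp _).aestronglyMeasurable.mul (int_u2 hu).1)
        (fun x => by positivity)
        (fun m x => 2 ^ (n + 1) * (‖x‖ ^ (n + 1) * qq ((m:ℝ) + 1) ‖x‖ ^ (n + 1) * ‖u x‖ ^ 2))
        (fun m => (hb _ (by positivity)).1.const_mul _) (fun m x => ?_)
        (2 ^ (n + 1) * K) (fun m => ?_) (fun m x hx => ?_)
    · have := qq_pos (R := (m:ℝ) + 1) (by positivity) (norm_nonneg x)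
      positivity
    · rw [integral_const_mul]
      have := (hb ((m:ℝ) + 1) (by positivity)).2
      gcongr
    · have h1 := qq_half (R := (m:ℝ) + 1) (by positivity) (norm_nonneg x) hx
      have h2 : 1 ≤ (2 * qq ((m:ℝ) + 1) ‖x‖) ^ (n + 1) := one_le_pow₀ h1
      calc ‖x‖ ^ (n + 1) * ‖u x‖ ^ 2 = ‖x‖ ^ (n + 1) * ‖u x‖ ^ 2 * 1 := (mul_one _).symm
        _ ≤ ‖x‖ ^ (n + 1) * ‖u x‖ ^ 2 * (2 * qq ((m:ℝ) + 1) ‖x‖) ^ (n + 1) := by gcongr
        _ = _ := by rw [mul_pow]; ring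

end Pool.Agent.H15.HN
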