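import Pool.Agent.H15.HN.Base

namespace Pool.Agent.H15.HN

open Pool.Agent.H99.HM Pool.Agent.H99.HN
open MeasureTheory Set Filter Topology Real
open scoped ContDiff

theorem aux_inner {B : ℝ → ℝ} (hmono : MonotoneOn B (Ioi 0)) (hn : ∀ r, 0 < r → 0 ≤ B r)
    (x y : E3) : 0 ≤ B ‖x‖ / ‖x‖ * inner ℝ x (x - y) + B ‖y‖ / ‖y‖ * inner ℝ y (y - x) := by
  rcases eq_or_ne x 0 with rfl | hx
  · rcases eq_or_ne y 0 with rfl | hy
    · simp
    · have hy' : 0 < ‖y‖ := norm_pos_iff.2 hy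
      simp only [norm_zero, div_zero, zero_mul, zero_add, sub_zero, real_inner_self_eq_norm_sq]
      have := hn _ hy'
      positivity
  · have hx' : 0 < ‖x‖ := norm_pos_iff.2 hx
    rcases eq_or_ne y 0 with rfl | hy
    · simp only [norm_zero, div_zero, zero_mul, add_zero, sub_zero, real_inner_self_eq_norm_sq]
      have := hn _ hx'
      positivity
    · have hy' : 0 < ‖y‖ := norm_pos_iff.2 hy
      have hxy : inner ℝ x y ≤ ‖x‖ * ‖y‖ := real_inner_le_norm x y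
      have hB1 := hn _ hx'
      have hB2 := hn _ hy'
      rw [inner_sub_right, inner_sub_right, real_inner_self_eq_norm_sq,
        real_inner_self_eq_norm_sq, real_inner_comm x y]
      have e1 : B ‖x‖ / ‖x‖ * (‖x‖ ^ 2 - ‖x‖ * ‖y‖) = B ‖x‖ * (‖x‖ - ‖y‖) := by
        field_simp
      have e2 : B ‖y‖ / ‖y‖ * (‖y‖ ^ 2 - ‖x‖ * ‖y‖) = B ‖y‖ * (‖y‖ - ‖x‖) := by
        field_simp
      have f1 : B ‖x‖ / ‖x‖ * (‖x‖ ^ 2 - ‖x‖ * ‖y‖) ≤ B ‖x‖ / ‖x‖ * (‖x‖ ^ 2 - inner ℝ x y) := by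
        gcongr
      have f2 : B ‖y‖ / ‖y‖ * (‖y‖ ^ 2 - ‖x‖ * ‖y‖) ≤ B ‖y‖ / ‖y‖ * (‖y‖ ^ 2 - inner ℝ x y) := by
        gcongr
      have key : 0 ≤ (B ‖x‖ - B ‖y‖) * (‖x‖ - ‖y‖) := by
        rcases le_total ‖x‖ ‖y‖ with h | h
        · have := hmono hx' hy' h
          exact mul_nonneg_of_nonpos_of_nonpos (by linarith) (by linarith)
        · have := hmono hy' hx' h
          exact mul_nonneg (by linarith) (by linarith)
      have : (inner ℝ x y : ℝ) = inner ℝ x y := rfl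
      nlinarith [f1, f2, e1, e2, key]

theorem sym (hH : T_hardy) : T_sym := by
  intro u G hu B C hB hmono hBb
  set b : E3 → ℝ := fun x => B ‖x‖ / ‖x‖ with hb
  have hbm : AEStronglyMeasurable b volume := by
    have : ContinuousOn (fun r : ℝ => B r / r) (Ioi 0) :=
      hB.div continuousOn_id (fun r hr => ne_of_gt hr)
    exact aesm_rad this
  have hC0 : 0 ≤ C := by
    have := hBb 1 one_pos
    linarith
  have hC : ∀ x, |b x| * ‖x‖ ≤ C := by
    intro x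
    rcases eq_or_ne x 0 with rfl | hx
    · simpa using hC0
    · have hx' : 0 < ‖x‖ := norm_pos_iff.2 hx
      have h1 := hBb _ hx'
      have h2 : |b x| = B ‖x‖ / ‖x‖ := abs_of_nonneg (by simp only [hb]; exact div_nonneg h1.1 hx'.le)
      rw [h2, div_mul_cancel₀ _ hx'.ne']
      exact h1.2.1
  obtain ⟨hI, hE⟩ := prod_Zf hH hu hbm hC
  rw [hE]
  set K : E3 × E3 → ℝ := fun z => (b z.1 * ‖u z.1‖ ^ 2) *
      (‖u z.2‖ ^ 2 * (inner ℝ z.1 (z.1 - z.2) / ‖z.1 - z.2‖ ^ 3)) with hK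
  have hsw : ∫ z, K z.swap ∂((volume : Measure E3).prod volume) =
      ∫ z, K z ∂((volume : Measure E3).prod volume) := integral_prod_swap K
  have hIs : Integrable (fun z => K z.swap) ((volume : Measure E3).prod volume) := hI.swap
  have h2 : 0 ≤ ∫ z, (K z + K z.swap) ∂((volume : Measure E3).prod volume) := by
    apply integral_nonneg
    intro z
    have hz := aux_inner hmono (fun r hr => (hBb r hr).1) z.1 z.2
    have e : K z + K z.swap = ‖u z.1‖ ^ 2 * ‖u z.2‖ ^ 2 / ‖z.1 - z.2‖ ^ 3 *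
        (B ‖z.1‖ / ‖z.1‖ * inner ℝ z.1 (z.1 - z.2) + B ‖z.2‖ / ‖z.2‖ * inner ℝ z.2 (z.2 - z.1)) := by
      simp only [hK, hb, Prod.fst_swap, Prod.snd_swap]
      rw [norm_sub_rev z.2 z.1]
      ring
    change 0 ≤ K z + K z.swap
    rw [e]
    positivity
  rw [integral_add hI hIs, hsw] at h2
  linarith

end Pool.Agent.H15.HN
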